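import Mathlib

/-!
Definitions for the number of solutions of `x y z ≡ c` modulo `p` in a short interval.
-/

set_option autoImplicit false

namespace Pool.Agent.Lib.MP_d1c37f_nt

open Finset

/-- Solutions of `(L + x) (L + y) (L + z) ≡ c` with `1 ≤ x, y, z ≤ M`. -/
noncomputable def Sol (p : ℕ) (c L : ℤ) (M : ℕ) : Finset (ℤ × ℤ × ℤ) :=
  (Icc (1 : ℤ) M ×ˢ (Icc (1 : ℤ) M ×ˢ Icc (1 : ℤ) M)).filter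
    (fun t => (p : ℤ) ∣ (L + t.1) * (L + t.2.1) * (L + t.2.2) - c)

/-- `(x y z, x y + y z + x z, x + y + z)` -/
def ev (t : ℤ × ℤ × ℤ) : ℤ × ℤ × ℤ :=
  (t.1 * t.2.1 * t.2.2, t.1 * t.2.1 + t.2.1 * t.2.2 + t.1 * t.2.2, t.1 + t.2.1 + t.2.2)

/-- the lattice of the vectors `(a, b, c)` with `a + L b + L ^ 2 c ≡ 0` -/
def InG (p : ℕ) (L : ℤ) (v : ℤ × ℤ × ℤ) : Prop := (p : ℤ) ∣ v.1 + L * v.2.1 + L ^ 2 * v.2.2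

/-- cross product -/
def cr (v w : ℤ × ℤ × ℤ) : ℤ × ℤ × ℤ :=
  (v.2.1 * w.2.2 - v.2.2 * w.2.1, v.2.2 * w.1 - v.1 * w.2.2, v.1 * w.2.1 - v.2.1 * w.1)

/-- dot product -/
def dt (v w : ℤ × ℤ × ℤ) : ℤ := v.1 * w.1 + v.2.1 * w.2.1 + v.2.2 * w.2.2

/-- scaled size of a vector -/
noncomputable def nm (M : ℕ) (v : ℤ × ℤ × ℤ) : ℝ :=
  max (|(v.1 : ℝ)| / (M : ℝ) ^ 3) (max (|(v.2.1 : ℝ)| / (M : ℝ) ^ 2) (|(v.2.2 : ℝ)| / (M : ℝ)))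

/-- scaled size of a cross product -/
noncomputable def nc (M : ℕ) (v : ℤ × ℤ × ℤ) : ℝ :=
  max (|(v.1 : ℝ)| / (M : ℝ) ^ 3)
    (max (|(v.2.1 : ℝ)| / (M : ℝ) ^ 4) (|(v.2.2 : ℝ)| / (M : ℝ) ^ 5))

end Pool.Agent.Lib.MP_d1c37f_nt
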