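import Mathlib
import Pool.Agent.Lib.MP_d1c37f_nt.Defs

/-!
Basic facts on the solutions.
-/

set_option autoImplicit false

namespace Pool.Agent.Lib.MP_d1c37f_nt

open Finset

variable {p : ℕ} {c L : ℤ} {M : ℕ}

theorem mem_sol {t : ℤ × ℤ × ℤ} : t ∈ Sol p c L M ↔
    (1 ≤ t.1 ∧ t.1 ≤ M) ∧ (1 ≤ t.2.1 ∧ t.2.1 ≤ M) ∧ (1 ≤ t.2.2 ∧ t.2.2 ≤ M) ∧
      (p : ℤ) ∣ (L + t.1) * (L + t.2.1) * (L + t.2.2) - c := by
  unfold Sol
  rw [mem_filter, mem_product, mem_product, mem_Icc, mem_Icc, mem_Icc]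
  tauto

theorem sol_unit (hc : ¬ (p : ℤ) ∣ c) {t : ℤ × ℤ × ℤ} (ht : t ∈ Sol p c L M) :
    ¬ (p : ℤ) ∣ L + t.1 ∧ ¬ (p : ℤ) ∣ L + t.2.1 ∧ ¬ (p : ℤ) ∣ L + t.2.2 := by
  have h := (mem_sol.1 ht).2.2.2
  refine ⟨fun hd => hc ?_, fun hd => hc ?_, fun hd => hc ?_⟩
  · have h1 : (p : ℤ) ∣ (L + t.1) * (L + t.2.1) * (L + t.2.2) := by
      rw [mul_assoc]
      exact hd.mul_right _
    have := dvd_sub h1 h
    simpa using this
  · have h1 : (p : ℤ) ∣ (L + t.1) * (L + t.2.1) * (L + t.2.2) :=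
      (hd.mul_left _).mul_right _
    have := dvd_sub h1 h
    simpa using this
  · have h1 : (p : ℤ) ∣ (L + t.1) * (L + t.2.1) * (L + t.2.2) := hd.mul_left _
    have := dvd_sub h1 h
    simpa using this

theorem eq_of_dvd_sub (hM : M ≤ p) {x y : ℤ} (hx : 1 ≤ x ∧ x ≤ M) (hy : 1 ≤ y ∧ y ≤ M)
    (h : (p : ℤ) ∣ x - y) : x = y := by
  have hM' : (M : ℤ) ≤ p := by exact_mod_cast hM
  have h1 : |x - y| < p := by
    rw [abs_lt]
    constructor <;> omega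
  have := Int.eq_zero_of_abs_lt_dvd h h1
  omega

/-- two coordinates determine the third one -/
theorem sol_unique (hp : p.Prime) (hc : ¬ (p : ℤ) ∣ c) (hM : M ≤ p) {t t' : ℤ × ℤ × ℤ}
    (ht : t ∈ Sol p c L M) (ht' : t' ∈ Sol p c L M) (h1 : t.1 = t'.1) (h2 : t.2.1 = t'.2.1) :
    t = t' := by
  have hp' : Prime (p : ℤ) := Nat.prime_iff_prime_int.1 hp
  obtain ⟨a1, a2, a3⟩ := sol_unit hc ht
  have e1 := (mem_sol.1 ht)
  have e2 := (mem_sol.1 ht')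
  have e3 : (p : ℤ) ∣ (L + t.1) * (L + t.2.1) * (t.2.2 - t'.2.2) := by
    have := dvd_sub e1.2.2.2 e2.2.2.2
    rw [← h1, ← h2] at this
    have e : (L + t.1) * (L + t.2.1) * (t.2.2 - t'.2.2) =
      (L + t.1) * (L + t.2.1) * (L + t.2.2) - c - ((L + t.1) * (L + t.2.1) * (L + t'.2.2) - c) := by
      ring
    rw [e]
    exact this
  have e4 : (p : ℤ) ∣ t.2.2 - t'.2.2 := by
    rcases hp'.dvd_or_dvd e3 with h | h
    · rcases hp'.dvd_or_dvd h with h | h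
      · exact absurd h a1
      · exact absurd h a2
    · exact h
  have h3 := eq_of_dvd_sub hM e1.2.2.1 e2.2.2.1 e4
  exact Prod.ext h1 (Prod.ext h2 h3)

/-- cyclic shift -/
theorem sol_rot {t : ℤ × ℤ × ℤ} (ht : t ∈ Sol p c L M) : (t.2.1, t.2.2, t.1) ∈ Sol p c L M := by
  rw [mem_sol] at ht ⊢
  refine ⟨ht.2.1, ht.2.2.1, ht.1, ?_⟩
  have e : (L + t.2.1) * (L + t.2.2) * (L + t.1) - c =
    (L + t.1) * (L + t.2.1) * (L + t.2.2) - c := by ring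
  show (p : ℤ) ∣ (L + t.2.1) * (L + t.2.2) * (L + t.1) - c
  rw [e]
  exact ht.2.2.2

/-- exchange of the first two variables -/
theorem sol_swap {t : ℤ × ℤ × ℤ} (ht : t ∈ Sol p c L M) : (t.2.1, t.1, t.2.2) ∈ Sol p c L M := by
  rw [mem_sol] at ht ⊢
  refine ⟨ht.2.1, ht.1, ht.2.2.1, ?_⟩
  have e : (L + t.2.1) * (L + t.1) * (L + t.2.2) - c =
    (L + t.1) * (L + t.2.1) * (L + t.2.2) - c := by ring
  show (p : ℤ) ∣ (L + t.2.1) * (L + t.1) * (L + t.2.2) - c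
  rw [e]
  exact ht.2.2.2

/-- counting by the first two coordinates -/
theorem card_le_mul (hp : p.Prime) (hc : ¬ (p : ℤ) ∣ c) (hM : M ≤ p) {S : Finset (ℤ × ℤ × ℤ)}
    (hS : S ⊆ Sol p c L M) {X Y : Finset ℤ} (hX : ∀ t ∈ S, t.1 ∈ X) (hY : ∀ t ∈ S, t.2.1 ∈ Y) :
    S.card ≤ X.card * Y.card := by
  rw [← card_product]
  refine card_le_card_of_injOn (fun t => (t.1, t.2.1)) ?_ ?_
  · intro t ht
    rw [mem_coe] at ht
    exact mem_coe.2 (mem_product.2 ⟨hX t ht, hY t ht⟩)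
  · intro t ht t' ht' h
    have h1 := congrArg Prod.fst h
    have h2 := congrArg Prod.snd h
    exact sol_unique hp hc hM (hS (mem_coe.1 ht)) (hS (mem_coe.1 ht')) h1 h2

theorem card_sol_le_sq (hp : p.Prime) (hc : ¬ (p : ℤ) ∣ c) (hM : M ≤ p) :
    (Sol p c L M).card ≤ M ^ 2 := by
  have h := card_le_mul hp hc hM (S := Sol p c L M) (Subset.refl _) (X := Icc (1 : ℤ) M)
    (Y := Icc (1 : ℤ) M) (fun t ht => by
      rw [mem_Icc]
      exact (mem_sol.1 ht).1) (fun t ht => by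
      rw [mem_Icc]
      exact (mem_sol.1 ht).2.1)
  rw [Int.card_Icc] at h
  have e : ((M : ℤ) + 1 - 1).toNat = M := by simp
  rw [e] at h
  rw [sq]
  exact h

theorem sub_fst (v w : ℤ × ℤ × ℤ) : (v - w).1 = v.1 - w.1 := rfl
theorem sub_snd (v w : ℤ × ℤ × ℤ) : (v - w).2.1 = v.2.1 - w.2.1 := rfl
theorem sub_trd (v w : ℤ × ℤ × ℤ) : (v - w).2.2 = v.2.2 - w.2.2 := rfl

theorem inG_sub {v w : ℤ × ℤ × ℤ} (hv : InG p L v) (hw : InG p L w) : InG p L (v - w) := by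
  unfold InG at *
  have e : (v - w).1 + L * (v - w).2.1 + L ^ 2 * (v - w).2.2 =
    (v.1 + L * v.2.1 + L ^ 2 * v.2.2) - (w.1 + L * w.2.1 + L ^ 2 * w.2.2) := by
    rw [sub_fst, sub_snd, sub_trd]
    ring
  rw [e]
  exact dvd_sub hv hw

theorem inG_smul {v : ℤ × ℤ × ℤ} (hv : InG p L v) (k : ℤ) : InG p L (k • v) := by
  unfold InG at *
  have e : (k • v).1 + L * (k • v).2.1 + L ^ 2 * (k • v).2.2 =
    k * (v.1 + L * v.2.1 + L ^ 2 * v.2.2) := by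
    simp only [Prod.smul_fst, Prod.smul_snd, smul_eq_mul]
    ring
  rw [e]
  exact hv.mul_left _

theorem ev_sub_mem {t t' : ℤ × ℤ × ℤ} (ht : t ∈ Sol p c L M) (ht' : t' ∈ Sol p c L M) :
    InG p L (ev t - ev t') := by
  have e1 := (mem_sol.1 ht).2.2.2
  have e2 := (mem_sol.1 ht').2.2.2
  have h := dvd_sub e1 e2
  unfold InG
  have e : (ev t - ev t').1 + L * (ev t - ev t').2.1 + L ^ 2 * (ev t - ev t').2.2 =
    (L + t.1) * (L + t.2.1) * (L + t.2.2) - c - ((L + t'.1) * (L + t'.2.1) * (L + t'.2.2) - c) := by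
    rw [sub_fst, sub_snd, sub_trd]
    unfold ev
    ring
  rw [e]
  exact h

/-- the polynomials of two solutions -/
theorem key_identity (t t' : ℤ × ℤ × ℤ) (x : ℤ) :
    (x - t'.1) * (x - t'.2.1) * (x - t'.2.2) - (x - t.1) * (x - t.2.1) * (x - t.2.2) =
      (ev t - ev t').1 - (ev t - ev t').2.1 * x + (ev t - ev t').2.2 * x ^ 2 := by
  rw [sub_fst, sub_snd, sub_trd]
  unfold ev
  ring

/-- equal symmetric functions -/
theorem card_ev_eq (t' : ℤ × ℤ × ℤ) (hp : p.Prime) (hc : ¬ (p : ℤ) ∣ c) (hM : M ≤ p)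
    {S : Finset (ℤ × ℤ × ℤ)} (hS : S ⊆ Sol p c L M) (h : ∀ t ∈ S, ev t = ev t') :
    S.card ≤ 9 := by
  have hroot : ∀ t ∈ S, ∀ x : ℤ, (x - t.1) * (x - t.2.1) * (x - t.2.2) = 0 →
      x ∈ ({t'.1, t'.2.1, t'.2.2} : Finset ℤ) := by
    intro t ht x hx
    have h1 := key_identity t t' x
    rw [h t ht, hx] at h1
    have h2 : (x - t'.1) * (x - t'.2.1) * (x - t'.2.2) = 0 := by
      have e : (ev t' - ev t').1 - (ev t' - ev t').2.1 * x + (ev t' - ev t').2.2 * x ^ 2 = 0 := by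
        rw [sub_fst, sub_snd, sub_trd]
        ring
      rw [e] at h1
      linarith
    rw [mem_insert, mem_insert, mem_singleton]
    rcases mul_eq_zero.1 h2 with h3 | h3
    · rcases mul_eq_zero.1 h3 with h4 | h4
      · left; linarith
      · right; left; linarith
    · right; right; linarith
  have h1 := card_le_mul hp hc hM hS (X := {t'.1, t'.2.1, t'.2.2}) (Y := {t'.1, t'.2.1, t'.2.2})
    (fun t ht => hroot t ht t.1 (by ring)) (fun t ht => hroot t ht t.2.1 (by ring))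
  have h2 : ({t'.1, t'.2.1, t'.2.2} : Finset ℤ).card ≤ 3 := card_le_three
  calc S.card ≤ _ := h1
    _ ≤ 3 * 3 := Nat.mul_le_mul h2 h2
    _ = 9 := rfl

end Pool.Agent.Lib.MP_d1c37f_nt
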