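import Mathlib
import Pool.Agent.Lib.MP_d1c37f_nt.Defs

/-!
Counting arguments for which a linear or quadratic polynomial divides a fixed number.
-/

set_option autoImplicit false

namespace Pool.Agent.Lib.MP_d1c37f_nt

open Finset

theorem card_divisors_int {R : ℤ} (hR : R ≠ 0) (V : Finset ℤ) (hV : ∀ v ∈ V, v ∣ R) :
    V.card ≤ 2 * R.natAbs.divisors.card := by
  have h1 : V ⊆ (R.natAbs.divisors.image (fun n : ℕ => (n : ℤ))) ∪
      (R.natAbs.divisors.image (fun n : ℕ => -(n : ℤ))) := by
    intro v hv
    have h := hV v hv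
    have h2 : v.natAbs ∈ R.natAbs.divisors := by
      rw [Nat.mem_divisors]
      exact ⟨Int.natAbs_dvd_natAbs.2 h, by simpa using hR⟩
    rw [mem_union, mem_image, mem_image]
    rcases Int.natAbs_eq v with h3 | h3
    · left
      exact ⟨v.natAbs, h2, h3.symm⟩
    · right
      exact ⟨v.natAbs, h2, h3.symm⟩
  calc V.card ≤ _ := card_le_card h1
    _ ≤ _ := card_union_le _ _
    _ ≤ R.natAbs.divisors.card + R.natAbs.divisors.card :=
      Nat.add_le_add card_image_le card_image_le
    _ = _ := by ring

theorem card_dvd_quad {M : ℕ} {a b c R : ℤ} (hR : R ≠ 0) (hab : b ≠ 0 ∨ c ≠ 0) :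
    ((Icc (1 : ℤ) M).filter (fun x => a - b * x + c * x ^ 2 ∣ R)).card ≤
      4 * R.natAbs.divisors.card := by
  set X := (Icc (1 : ℤ) M).filter (fun x => a - b * x + c * x ^ 2 ∣ R) with hX
  have h1 : X.card ≤ 2 * (X.image (fun x => a - b * x + c * x ^ 2)).card := by
    apply card_le_mul_card_image
    intro v _
    by_contra hcon
    rw [not_le, two_lt_card] at hcon
    obtain ⟨x, hx, y, hy, z, hz, hxy, hxz, hyz⟩ := hcon
    rw [mem_filter] at hx hy hz
    have e1 : (x - y) * (c * (x + y) - b) = 0 := by linear_combination hx.2 - hy.2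
    have e2 : (x - z) * (c * (x + z) - b) = 0 := by linear_combination hx.2 - hz.2
    have f1 : c * (x + y) - b = 0 := by
      rcases mul_eq_zero.1 e1 with h | h
      · exact absurd (sub_eq_zero.1 h) hxy
      · exact h
    have f2 : c * (x + z) - b = 0 := by
      rcases mul_eq_zero.1 e2 with h | h
      · exact absurd (sub_eq_zero.1 h) hxz
      · exact h
    have f3 : c * (y - z) = 0 := by linear_combination f1 - f2
    have f4 : c = 0 := by
      rcases mul_eq_zero.1 f3 with h | h
      · exact h
      · exact absurd (sub_eq_zero.1 h) hyz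
    rw [f4] at f1
    rcases hab with h | h
    · apply h
      linarith
    · exact h f4
  have h2 := card_divisors_int hR (X.image (fun x => a - b * x + c * x ^ 2)) (by
    intro v hv
    rw [mem_image] at hv
    obtain ⟨x, hx, rfl⟩ := hv
    rw [hX, mem_filter] at hx
    exact hx.2)
  omega

theorem card_dvd_lin {M : ℕ} {a b R : ℤ} (hR : R ≠ 0) (ha : a ≠ 0) :
    ((Icc (1 : ℤ) M).filter (fun x => a * x + b ∣ R)).card ≤ 2 * R.natAbs.divisors.card := by
  set X := (Icc (1 : ℤ) M).filter (fun x => a * x + b ∣ R) with hX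
  have h1 : X.card = (X.image (fun x => a * x + b)).card := by
    rw [card_image_of_injective]
    intro x y hxy
    have : a * (x - y) = 0 := by
      have h : a * x + b = a * y + b := hxy
      linear_combination h
    rcases mul_eq_zero.1 this with h | h
    · exact absurd h ha
    · linarith
  rw [h1]
  apply card_divisors_int hR
  intro v hv
  rw [mem_image] at hv
  obtain ⟨x, hx, rfl⟩ := hv
  rw [hX, mem_filter] at hx
  exact hx.2

end Pool.Agent.Lib.MP_d1c37f_nt
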