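import Mathlib
import Pool.Agent.Lib.MP_14ee70_nt.Div
import Pool.Agent.Lib.MP_d1c37f_nt.Basic
import Pool.Agent.Lib.MP_d1c37f_nt.Count

/-!
A line contains few solutions.
-/

set_option autoImplicit false

namespace Pool.Agent.Lib.MP_d1c37f_nt

open Finset

/-- the divisor bound in the form needed here -/
theorem tau_sq (ε A : ℝ) (hε : 0 < ε) (hA : 1 ≤ A) (a : ℕ) : ∃ C : ℝ, 0 < C ∧
    ∀ (M : ℕ) (R : ℤ), 1 ≤ M → R ≠ 0 → (|R| : ℝ) ≤ A * (M : ℝ) ^ a →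
      (((4 * R.natAbs.divisors.card) ^ 2 : ℕ) : ℝ) ≤ C * (M : ℝ) ^ ε := by
  obtain ⟨K, hK1, hK⟩ := MP14ee70.card_divisors_le (ε / (2 * (a + 1))) (by positivity)
  set η : ℝ := ε / (2 * (a + 1)) with hη
  have hη0 : 0 < η := by positivity
  refine ⟨16 * K ^ 2 * A ^ (2 * η), by positivity, ?_⟩
  intro M R hM hR hRA
  have hM1 : (1 : ℝ) ≤ M := by exact_mod_cast hM
  have h1 := hK R.natAbs (by simpa using hR)
  have e1 : ((R.natAbs : ℕ) : ℝ) = |(R : ℝ)| := by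
    rw [← Int.cast_abs, Int.abs_eq_natAbs]
    simp
  rw [e1] at h1
  have h2 : |(R : ℝ)| ^ η ≤ (A * (M : ℝ) ^ a) ^ η :=
    Real.rpow_le_rpow (abs_nonneg _) hRA hη0.le
  have h3 : (A * (M : ℝ) ^ a) ^ η = A ^ η * (M : ℝ) ^ (a * η) := by
    rw [Real.mul_rpow (by linarith) (by positivity), ← Real.rpow_natCast, ← Real.rpow_mul (by linarith)]
  have h4 : ((R.natAbs.divisors.card : ℕ) : ℝ) ≤ K * (A ^ η * (M : ℝ) ^ (a * η)) := by
    rw [← h3]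
    exact h1.trans (mul_le_mul_of_nonneg_left h2 (by linarith))
  have h5 : (M : ℝ) ^ (2 * (a * η)) ≤ (M : ℝ) ^ ε := by
    apply Real.rpow_le_rpow_of_exponent_le hM1
    rw [hη]
    have : 2 * ((a : ℝ) * (ε / (2 * (a + 1)))) = ε * (a / (a + 1)) := by
      field_simp
    rw [this]
    have h6 : (a : ℝ) / (a + 1) ≤ 1 := by
      rw [div_le_one (by positivity)]
      linarith
    nlinarith
  push_cast
  calc (4 * ((R.natAbs.divisors.card : ℕ) : ℝ)) ^ 2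
      ≤ (4 * (K * (A ^ η * (M : ℝ) ^ (a * η)))) ^ 2 := by gcongr
    _ = 16 * K ^ 2 * (A ^ η) ^ 2 * ((M : ℝ) ^ (a * η)) ^ 2 := by ring
    _ = 16 * K ^ 2 * A ^ (2 * η) * (M : ℝ) ^ (2 * (a * η)) := by
        rw [← Real.rpow_natCast (A ^ η), ← Real.rpow_mul (by linarith),
          ← Real.rpow_natCast ((M : ℝ) ^ (a * η)), ← Real.rpow_mul (by linarith)]
        congr 2
        · congr 1
          push_cast
          ring
        · push_cast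
          ring
    _ ≤ _ := by gcongr

/-! ### vectors -/

theorem cr_par {u a b : ℤ × ℤ × ℤ} (hu : u ≠ 0) (ha : cr u a = 0) (hb : cr u b = 0) :
    cr a b = 0 := by
  obtain ⟨u1, u2, u3⟩ := u
  obtain ⟨a1, a2, a3⟩ := a
  obtain ⟨b1, b2, b3⟩ := b
  simp only [cr, Prod.mk_eq_zero] at ha hb ⊢
  obtain ⟨p1, p2, p3⟩ := ha
  obtain ⟨q1, q2, q3⟩ := hb
  have hne : u1 ≠ 0 ∨ u2 ≠ 0 ∨ u3 ≠ 0 := by
    by_contra hcon
    push Not at hcon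
    apply hu
    rw [hcon.1, hcon.2.1, hcon.2.2]
    rfl
  rcases hne with h | h | h
  · have h2 : u1 ^ 2 ≠ 0 := pow_ne_zero 2 h
    refine ⟨?_, ?_, ?_⟩
    · apply (mul_eq_zero.1 (?_ : u1 ^ 2 * (a2 * b3 - a3 * b2) = 0)).resolve_left h2
      linear_combination (u1 * b3) * p3 + u2 * a1 * (-q2) + (-(u1 * b2)) * (-p2) + (-(u3 * a1)) * q3
    · apply (mul_eq_zero.1 (?_ : u1 ^ 2 * (a3 * b1 - a1 * b3) = 0)).resolve_left h2
      linear_combination (u1 * b1) * (-p2) + (-(u1 * a1)) * (-q2)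
    · apply (mul_eq_zero.1 (?_ : u1 ^ 2 * (a1 * b2 - a2 * b1) = 0)).resolve_left h2
      linear_combination (u1 * a1) * q3 + (-(u1 * b1)) * p3
  · have h2 : u2 ^ 2 ≠ 0 := pow_ne_zero 2 h
    refine ⟨?_, ?_, ?_⟩
    · apply (mul_eq_zero.1 (?_ : u2 ^ 2 * (a2 * b3 - a3 * b2) = 0)).resolve_left h2
      linear_combination (u2 * a2) * q1 + (-(u2 * b2)) * p1
    · apply (mul_eq_zero.1 (?_ : u2 ^ 2 * (a3 * b1 - a1 * b3) = 0)).resolve_left h2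
      linear_combination (u2 * b1) * p1 + u3 * a2 * (-q3) + (-(u2 * b3)) * (-p3) + (-(u1 * a2)) * q1
    · apply (mul_eq_zero.1 (?_ : u2 ^ 2 * (a1 * b2 - a2 * b1) = 0)).resolve_left h2
      linear_combination (u2 * b2) * (-p3) + (-(u2 * a2)) * (-q3)
  · have h2 : u3 ^ 2 ≠ 0 := pow_ne_zero 2 h
    refine ⟨?_, ?_, ?_⟩
    · apply (mul_eq_zero.1 (?_ : u3 ^ 2 * (a2 * b3 - a3 * b2) = 0)).resolve_left h2
      linear_combination (u3 * b3) * (-p1) + (-(u3 * a3)) * (-q1)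
    · apply (mul_eq_zero.1 (?_ : u3 ^ 2 * (a3 * b1 - a1 * b3) = 0)).resolve_left h2
      linear_combination (u3 * a3) * q2 + (-(u3 * b3)) * p2
    · apply (mul_eq_zero.1 (?_ : u3 ^ 2 * (a1 * b2 - a2 * b1) = 0)).resolve_left h2
      linear_combination (u3 * b2) * p2 + u1 * a3 * (-q1) + (-(u3 * b1)) * (-p1) + (-(u2 * a3)) * q2

/-- primitive vectors -/
theorem exists_prim (v : ℤ × ℤ × ℤ) (hv : v ≠ 0) : ∃ (g : ℤ) (w : ℤ × ℤ × ℤ) (α β γ : ℤ),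
    g ≠ 0 ∧ v.1 = g * w.1 ∧ v.2.1 = g * w.2.1 ∧ v.2.2 = g * w.2.2 ∧
      α * w.1 + β * w.2.1 + γ * w.2.2 = 1 := by
  obtain ⟨v1, v2, v3⟩ := v
  simp only
  have hne : v1 ≠ 0 ∨ v2 ≠ 0 ∨ v3 ≠ 0 := by
    by_contra hcon
    push Not at hcon
    apply hv
    rw [hcon.1, hcon.2.1, hcon.2.2]
    rfl
  obtain ⟨g, hg⟩ : ∃ g : ℤ, g = (Int.gcd v1 (Int.gcd v2 v3 : ℤ) : ℤ) := ⟨_, rfl⟩
  have hd1 : g ∣ v1 := by rw [hg]; exact Int.gcd_dvd_left ..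
  have hd23 : g ∣ (Int.gcd v2 v3 : ℤ) := by rw [hg]; exact Int.gcd_dvd_right ..
  have hd2 : g ∣ v2 := hd23.trans (Int.gcd_dvd_left ..)
  have hd3 : g ∣ v3 := hd23.trans (Int.gcd_dvd_right ..)
  have hg0 : g ≠ 0 := by
    intro h0
    rw [h0, zero_dvd_iff] at hd1 hd2 hd3
    rcases hne with h | h | h
    · exact h hd1
    · exact h hd2
    · exact h hd3
  obtain ⟨w1, hw1⟩ := hd1
  obtain ⟨w2, hw2⟩ := hd2
  obtain ⟨w3, hw3⟩ := hd3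
  have hb1 := Int.gcd_eq_gcd_ab v1 (Int.gcd v2 v3 : ℤ)
  have hb2 := Int.gcd_eq_gcd_ab v2 v3
  rw [← hg] at hb1
  refine ⟨g, (w1, w2, w3), Int.gcdA v1 (Int.gcd v2 v3 : ℤ),
    Int.gcdA v2 v3 * Int.gcdB v1 (Int.gcd v2 v3 : ℤ),
    Int.gcdB v2 v3 * Int.gcdB v1 (Int.gcd v2 v3 : ℤ), hg0, hw1, hw2, hw3, ?_⟩
  apply mul_left_cancel₀ hg0
  simp only
  rw [mul_one]
  set A := Int.gcdA v1 (Int.gcd v2 v3 : ℤ)
  set B := Int.gcdB v1 (Int.gcd v2 v3 : ℤ)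
  set A' := Int.gcdA v2 v3
  set B' := Int.gcdB v2 v3
  calc g * (A * w1 + A' * B * w2 + B' * B * w3)
      = (g * w1) * A + ((g * w2) * A' + (g * w3) * B') * B := by ring
    _ = v1 * A + (v2 * A' + v3 * B') * B := by rw [← hw1, ← hw2, ← hw3]
    _ = g := by rw [← hb2]; exact hb1.symm

theorem eq_mul_of_prim {w d : ℤ × ℤ × ℤ} {α β γ : ℤ}
    (h : α * w.1 + β * w.2.1 + γ * w.2.2 = 1) (hc : cr w d = 0) :
    ∃ k : ℤ, d.1 = k * w.1 ∧ d.2.1 = k * w.2.1 ∧ d.2.2 = k * w.2.2 := by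
  obtain ⟨w1, w2, w3⟩ := w
  obtain ⟨d1, d2, d3⟩ := d
  simp only [cr, Prod.mk_eq_zero] at hc
  simp only at h ⊢
  obtain ⟨p1, p2, p3⟩ := hc
  refine ⟨α * d1 + β * d2 + γ * d3, ?_, ?_, ?_⟩
  · linear_combination (-d1) * h + (-β) * p3 + γ * p2
  · linear_combination (-d2) * h + α * p3 + (-γ) * p1
  · linear_combination (-d3) * h + (-α) * p2 + β * p1

end Pool.Agent.Lib.MP_d1c37f_nt
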