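import Mathlib
import Pool.Agent.Lib.MP_d1c37f_nt.Line

/-!
A line contains few solutions.
-/

set_option autoImplicit false

namespace Pool.Agent.Lib.MP_d1c37f_nt

open Finset

theorem sol_size {p : ℕ} {c L : ℤ} {M : ℕ} {t t' : ℤ × ℤ × ℤ} (ht : t ∈ Sol p c L M)
    (ht' : t' ∈ Sol p c L M) :
    |(ev t - ev t').1| < (M : ℤ) ^ 3 ∧ |(ev t - ev t').2.1| ≤ 3 * (M : ℤ) ^ 2 ∧
      |(ev t - ev t').2.2| ≤ 3 * (M : ℤ) := by
  obtain ⟨⟨x1, x2⟩, ⟨y1, y2⟩, ⟨z1, z2⟩, -⟩ := mem_sol.1 ht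
  obtain ⟨⟨x1', x2'⟩, ⟨y1', y2'⟩, ⟨z1', z2'⟩, -⟩ := mem_sol.1 ht'
  rw [sub_fst, sub_snd, sub_trd]
  unfold ev
  simp only
  obtain ⟨x, y, z⟩ := t
  obtain ⟨x', y', z'⟩ := t'
  simp only at *
  have a1 : 1 ≤ x * y := one_le_mul_of_one_le_of_one_le x1 y1
  have a2 : x * y ≤ M * M := mul_le_mul x2 y2 (by omega) (by omega)
  have a3 : 1 ≤ y * z := one_le_mul_of_one_le_of_one_le y1 z1
  have a4 : y * z ≤ M * M := mul_le_mul y2 z2 (by omega) (by omega)
  have a5 : 1 ≤ x * z := one_le_mul_of_one_le_of_one_le x1 z1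
  have a6 : x * z ≤ M * M := mul_le_mul x2 z2 (by omega) (by omega)
  have a7 : 1 ≤ x * y * z := one_le_mul_of_one_le_of_one_le a1 z1
  have a8 : x * y * z ≤ M * M * M := mul_le_mul a2 z2 (by omega) (by positivity)
  have b1 : 1 ≤ x' * y' := one_le_mul_of_one_le_of_one_le x1' y1'
  have b2 : x' * y' ≤ M * M := mul_le_mul x2' y2' (by omega) (by omega)
  have b3 : 1 ≤ y' * z' := one_le_mul_of_one_le_of_one_le y1' z1'
  have b4 : y' * z' ≤ M * M := mul_le_mul y2' z2' (by omega) (by omega)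
  have b5 : 1 ≤ x' * z' := one_le_mul_of_one_le_of_one_le x1' z1'
  have b6 : x' * z' ≤ M * M := mul_le_mul x2' z2' (by omega) (by omega)
  have b7 : 1 ≤ x' * y' * z' := one_le_mul_of_one_le_of_one_le b1 z1'
  have b8 : x' * y' * z' ≤ M * M * M := mul_le_mul b2 z2' (by omega) (by positivity)
  have e3 : (M : ℤ) ^ 3 = M * M * M := by ring
  have e2 : (M : ℤ) ^ 2 = M * M := by ring
  rw [e3, e2]
  refine ⟨?_, ?_, ?_⟩
  · rw [abs_lt]
    constructor <;> linarith
  · rw [abs_le]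
    constructor <;> linarith
  · rw [abs_le]
    constructor <;> linarith

/-- cyclic shift of a triple -/
def rot (t : ℤ × ℤ × ℤ) : ℤ × ℤ × ℤ := (t.2.1, t.2.2, t.1)

theorem rot_inj : Function.Injective rot := by
  intro t t' h
  unfold rot at h
  simp only [Prod.mk.injEq] at h
  exact Prod.ext h.2.2 (Prod.ext h.1 h.2.1)

theorem ev_rot (t : ℤ × ℤ × ℤ) : ev (rot t) = ev t := by
  unfold ev rot
  simp only [Prod.mk.injEq]
  refine ⟨by ring, by ring, by ring⟩

/-- solutions with a fixed third coordinate -/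
theorem line_fixed (ε : ℝ) (hε : 0 < ε) : ∃ C : ℝ, 0 < C ∧ ∀ (p : ℕ) (c L : ℤ) (M : ℕ),
    p.Prime → ¬ (p : ℤ) ∣ c → 1 ≤ M → M ^ 3 < p → ∀ (ρ : ℤ) (u : ℤ × ℤ × ℤ)
      (S : Finset (ℤ × ℤ × ℤ)), S ⊆ Sol p c L M → u ≠ 0 → (∀ t ∈ S, t.2.2 = ρ) →
      (∀ t ∈ S, ∀ t' ∈ S, cr u (ev t - ev t') = 0) → (S.card : ℝ) ≤ C * (M : ℝ) ^ ε := by
  obtain ⟨C, hC, hτ⟩ := tau_sq ε 9 hε (by norm_num) 4
  refine ⟨C + 9, by linarith, ?_⟩
  intro p c L M hp hc hM hMp ρ u S hS hu hρ hpar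
  have hM1 : (1 : ℝ) ≤ M := by exact_mod_cast hM
  have hMε : (1 : ℝ) ≤ (M : ℝ) ^ ε := Real.one_le_rpow hM1 hε.le
  have hp' : Prime (p : ℤ) := Nat.prime_iff_prime_int.1 hp
  have hMp1 : M ≤ p := by
    have : M ≤ M ^ 3 := Nat.le_self_pow (by norm_num) M
    omega
  have hMp2 : (M : ℤ) ^ 2 < p := by
    have h1 : M ^ 2 ≤ M ^ 3 := Nat.pow_le_pow_right hM (by norm_num)
    have : M ^ 2 < p := by omega
    exact_mod_cast this
  have hsmall : S.card ≤ 9 → (S.card : ℝ) ≤ (C + 9) * (M : ℝ) ^ ε := by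
    intro h
    have h1 : (S.card : ℝ) ≤ 9 := by exact_mod_cast h
    nlinarith
  rcases S.eq_empty_or_nonempty with hSe | ⟨t0, ht0⟩
  · apply hsmall
    rw [hSe]
    simp
  by_cases hall : ∀ t ∈ S, ev t = ev t0
  · exact hsmall (card_ev_eq t0 hp hc hMp1 hS hall)
  push Not at hall
  obtain ⟨t1, ht1, hne⟩ := hall
  have hd0 : ev t1 - ev t0 ≠ 0 := sub_ne_zero.2 hne
  obtain ⟨x0, y0, z0⟩ := t0
  obtain ⟨x1, y1, z1⟩ := t1
  have hz0 : z0 = ρ := hρ _ ht0
  have hz1 : z1 = ρ := hρ _ ht1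
  subst hz0
  subst hz1
  obtain ⟨a, ha⟩ : ∃ a : ℤ, a = x1 + y1 - (x0 + y0) := ⟨_, rfl⟩
  obtain ⟨b, hb⟩ : ∃ b : ℤ, b = x1 * y1 - x0 * y0 := ⟨_, rfl⟩
  have hab : ¬ (a = 0 ∧ b = 0) := by
    rintro ⟨h1, h2⟩
    apply hd0
    rw [ha] at h1
    rw [hb] at h2
    have e1 : x1 + y1 = x0 + y0 := by linarith
    have e2 : x1 * y1 = x0 * y0 := by linarith
    refine Prod.ext ?_ (Prod.ext ?_ ?_)
    · rw [sub_fst]
      show x1 * y1 * z1 - x0 * y0 * z1 = 0
      rw [e2]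
      ring
    · rw [sub_snd]
      show x1 * y1 + y1 * z1 + x1 * z1 - (x0 * y0 + y0 * z1 + x0 * z1) = 0
      linear_combination e2 + z1 * e1
    · rw [sub_trd]
      show x1 + y1 + z1 - (x0 + y0 + z1) = 0
      linear_combination e1
  -- the linear relation
  have hrel : ∀ t ∈ S, a * (t.1 * t.2.1 - x0 * y0) = b * (t.1 + t.2.1 - (x0 + y0)) := by
    intro t ht
    have h1 := cr_par hu (hpar _ ht1 _ ht0) (hpar t ht _ ht0)
    have h2 := congrArg Prod.fst h1
    obtain ⟨x, y, z⟩ := t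
    have hz : z = z1 := hρ _ ht
    subst hz
    simp only [cr, Prod.fst_zero] at h2
    rw [sub_snd, sub_trd, sub_snd, sub_trd] at h2
    simp only [ev] at h2
    rw [ha, hb]
    simp only
    linear_combination (-1) * h2
  -- the unit
  obtain ⟨-, -, hunit⟩ := sol_unit hc (hS ht0)
  simp only at hunit
  have hcong : ∀ t ∈ S, (p : ℤ) ∣ (L ^ 2 + L * (t.1 + t.2.1) + t.1 * t.2.1) -
      (L ^ 2 + L * (x0 + y0) + x0 * y0) := by
    intro t ht
    have h1 := (mem_sol.1 (hS ht)).2.2.2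
    have h2 := (mem_sol.1 (hS ht0)).2.2.2
    obtain ⟨x, y, z⟩ := t
    have hz : z = z1 := hρ _ ht
    subst hz
    simp only at h1 h2 ⊢
    have h3 := dvd_sub h1 h2
    have h4 : (p : ℤ) ∣ (L + z) * ((L ^ 2 + L * (x + y) + x * y) -
      (L ^ 2 + L * (x0 + y0) + x0 * y0)) := by
      have e : (L + z) * ((L ^ 2 + L * (x + y) + x * y) - (L ^ 2 + L * (x0 + y0) + x0 * y0)) =
        (L + x) * (L + y) * (L + z) - c - ((L + x0) * (L + y0) * (L + z) - c) := by ring
      rw [e]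
      exact h3
    exact (hp'.dvd_or_dvd h4).resolve_left hunit
  have ha0 : a ≠ 0 := by
    intro h0
    have hb0 : b ≠ 0 := fun h => hab ⟨h0, h⟩
    have h1 := hcong _ ht1
    simp only at h1
    rw [ha] at h0
    have e1 : x1 + y1 = x0 + y0 := by linarith
    rw [e1] at h1
    have e2 : (L ^ 2 + L * (x0 + y0) + x1 * y1) - (L ^ 2 + L * (x0 + y0) + x0 * y0) = b := by
      rw [hb]
      ring
    rw [e2] at h1
    apply hb0
    refine Int.eq_zero_of_abs_lt_dvd h1 ?_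
    obtain ⟨⟨p1, p2⟩, ⟨p3, p4⟩, -, -⟩ := mem_sol.1 (hS ht1)
    obtain ⟨⟨q1, q2⟩, ⟨q3, q4⟩, -, -⟩ := mem_sol.1 (hS ht0)
    simp only at p1 p2 p3 p4 q1 q2 q3 q4
    have r1 : 1 ≤ x1 * y1 := one_le_mul_of_one_le_of_one_le p1 p3
    have r2 : x1 * y1 ≤ M * M := mul_le_mul p2 p4 (by omega) (by omega)
    have r3 : 1 ≤ x0 * y0 := one_le_mul_of_one_le_of_one_le q1 q3
    have r4 : x0 * y0 ≤ M * M := mul_le_mul q2 q4 (by omega) (by omega)
    have e3 : (M : ℤ) ^ 2 = M * M := by ring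
    rw [e3] at hMp2
    rw [hb, abs_lt]
    constructor <;> linarith
  obtain ⟨R, hR⟩ : ∃ R : ℤ, R = (a * x0 + (-b)) * (a * y0 + (-b)) := ⟨_, rfl⟩
  have hfac : ∀ t ∈ S, (a * t.1 + (-b)) * (a * t.2.1 + (-b)) = R := by
    intro t ht
    have h1 := hrel t ht
    rw [hR]
    linear_combination a * h1
  by_cases hR0 : R = 0
  · -- one coordinate is fixed
    apply hsmall
    have hdis : ∀ t ∈ S, a * t.1 = b ∨ a * t.2.1 = b := by
      intro t ht
      have h1 := hfac t ht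
      rw [hR0] at h1
      rcases mul_eq_zero.1 h1 with h | h
      · left; linarith
      · right; linarith
    have hsub : S ⊆ (S.filter (fun t => a * t.1 = b)) ∪ (S.filter (fun t => a * t.2.1 = b)) := by
      intro t ht
      rw [mem_union, mem_filter, mem_filter]
      rcases hdis t ht with h | h
      · left; exact ⟨ht, h⟩
      · right; exact ⟨ht, h⟩
    have hone : (S.filter (fun t => a * t.1 = b)).card ≤ 1 := by
      rw [card_le_one]
      intro t ht t' ht'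
      rw [mem_filter] at ht ht'
      have h1 : t.1 = t'.1 := by
        apply mul_left_cancel₀ ha0
        rw [ht.2, ht'.2]
      have h2 : t.2.2 = t'.2.2 := by rw [hρ t ht.1, hρ t' ht'.1]
      have h3 := sol_unique hp hc hMp1 (sol_rot (sol_rot (hS ht.1))) (sol_rot (sol_rot (hS ht'.1)))
        h2 h1
      have h4 := congrArg (fun s : ℤ × ℤ × ℤ => s.2.2) h3
      simp only at h4
      exact Prod.ext h1 (Prod.ext h4 h2)
    have htwo : (S.filter (fun t => a * t.2.1 = b)).card ≤ 1 := by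
      rw [card_le_one]
      intro t ht t' ht'
      rw [mem_filter] at ht ht'
      have h1 : t.2.1 = t'.2.1 := by
        apply mul_left_cancel₀ ha0
        rw [ht.2, ht'.2]
      have h2 : t.2.2 = t'.2.2 := by rw [hρ t ht.1, hρ t' ht'.1]
      have h3 := sol_unique hp hc hMp1 (sol_rot (hS ht.1)) (sol_rot (hS ht'.1)) h1 h2
      have h4 := congrArg (fun s : ℤ × ℤ × ℤ => s.2.2) h3
      simp only at h4
      exact Prod.ext h4 (Prod.ext h1 h2)
    calc S.card ≤ _ := card_le_card hsub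
      _ ≤ _ := card_union_le _ _
      _ ≤ 1 + 1 := Nat.add_le_add hone htwo
      _ ≤ 9 := by norm_num
  · -- divisors
    have hcard := card_le_mul hp hc hMp1 hS
      (X := (Icc (1 : ℤ) M).filter (fun x => a * x + (-b) ∣ R))
      (Y := (Icc (1 : ℤ) M).filter (fun x => a * x + (-b) ∣ R))
      (fun t ht => by
        rw [mem_filter, mem_Icc]
        exact ⟨(mem_sol.1 (hS ht)).1, ⟨_, (hfac t ht).symm⟩⟩)
      (fun t ht => by
        rw [mem_filter, mem_Icc]
        exact ⟨(mem_sol.1 (hS ht)).2.1, ⟨a * t.1 + (-b), by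
          rw [mul_comm]
          exact (hfac t ht).symm⟩⟩)
    have hlin := card_dvd_lin (M := M) (b := -b) hR0 ha0
    have hcard2 : S.card ≤ (4 * R.natAbs.divisors.card) ^ 2 := by
      calc S.card ≤ _ := hcard
        _ ≤ (2 * R.natAbs.divisors.card) * (2 * R.natAbs.divisors.card) :=
          Nat.mul_le_mul hlin hlin
        _ ≤ (4 * R.natAbs.divisors.card) * (4 * R.natAbs.divisors.card) := by
          apply Nat.mul_le_mul <;> omega
        _ = _ := by ring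
    have hRs : (|R| : ℝ) ≤ 9 * (M : ℝ) ^ 4 := by
      obtain ⟨⟨p1, p2⟩, ⟨p3, p4⟩, -, -⟩ := mem_sol.1 (hS ht1)
      obtain ⟨⟨q1, q2⟩, ⟨q3, q4⟩, -, -⟩ := mem_sol.1 (hS ht0)
      simp only at p1 p2 p3 p4 q1 q2 q3 q4
      have r1 : 1 ≤ x1 * y1 := one_le_mul_of_one_le_of_one_le p1 p3
      have r2 : x1 * y1 ≤ M * M := mul_le_mul p2 p4 (by omega) (by omega)
      have r3 : 1 ≤ x0 * y0 := one_le_mul_of_one_le_of_one_le q1 q3
      have r4 : x0 * y0 ≤ M * M := mul_le_mul q2 q4 (by omega) (by omega)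
      have sa : |a| ≤ 2 * M := by
        rw [ha, abs_le]
        constructor <;> linarith
      have sb : |b| ≤ M * M := by
        rw [hb, abs_le]
        constructor <;> linarith
      have sx : |a * x0 + (-b)| ≤ 3 * (M * M) := by
        calc |a * x0 + (-b)| ≤ |a * x0| + |(-b)| := abs_add_le _ _
          _ = |a| * x0 + |b| := by rw [abs_mul, abs_neg, abs_of_pos (by omega : 0 < x0)]
          _ ≤ 2 * M * M + M * M := by
              apply add_le_add _ sb
              exact mul_le_mul sa q2 (by omega) (by positivity)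
          _ = _ := by ring
      have sy : |a * y0 + (-b)| ≤ 3 * (M * M) := by
        calc |a * y0 + (-b)| ≤ |a * y0| + |(-b)| := abs_add_le _ _
          _ = |a| * y0 + |b| := by rw [abs_mul, abs_neg, abs_of_pos (by omega : 0 < y0)]
          _ ≤ 2 * M * M + M * M := by
              apply add_le_add _ sb
              exact mul_le_mul sa q4 (by omega) (by positivity)
          _ = _ := by ring
      have sR : |R| ≤ 9 * (M : ℤ) ^ 4 := by
        rw [hR, abs_mul]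
        calc |a * x0 + (-b)| * |a * y0 + (-b)| ≤ (3 * (M * M)) * (3 * (M * M)) :=
              mul_le_mul sx sy (abs_nonneg _) (by positivity)
          _ = _ := by ring
      exact_mod_cast sR
    have h1 := hτ M R hM hR0 hRs
    have h2 : (S.card : ℝ) ≤ (((4 * R.natAbs.divisors.card) ^ 2 : ℕ) : ℝ) := by
      exact_mod_cast hcard2
    nlinarith

end Pool.Agent.Lib.MP_d1c37f_nt
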