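import Mathlib
import Pool.Agent.Lib.MP_d1c37f_nt.Line2

/-!
A line contains few solutions.
-/

set_option autoImplicit false

namespace Pool.Agent.Lib.MP_d1c37f_nt

open Finset

theorem rot_sol {p : ℕ} {c L : ℤ} {M : ℕ} {t : ℤ × ℤ × ℤ} (ht : t ∈ Sol p c L M) :
    rot t ∈ Sol p c L M := sol_rot ht

/-- solutions on a line -/
theorem line_bound (ε : ℝ) (hε : 0 < ε) : ∃ C : ℝ, 0 < C ∧ ∀ (p : ℕ) (c L : ℤ) (M : ℕ),
    p.Prime → ¬ (p : ℤ) ∣ c → 1 ≤ M → M ^ 3 < p → ∀ (u : ℤ × ℤ × ℤ)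
      (S : Finset (ℤ × ℤ × ℤ)), S ⊆ Sol p c L M → u ≠ 0 →
      (∀ t ∈ S, ∀ t' ∈ S, cr u (ev t - ev t') = 0) → (S.card : ℝ) ≤ C * (M : ℝ) ^ ε := by
  obtain ⟨C1, hC1, hfix⟩ := line_fixed ε hε
  obtain ⟨C2, hC2, hτ⟩ := tau_sq ε 343 hε (by norm_num) 9
  refine ⟨3 * C1 + C2 + 9, by linarith, ?_⟩
  intro p c L M hp hc hM hMp u S hS hu hpar
  have hM1 : (1 : ℝ) ≤ M := by exact_mod_cast hM
  have hMε : (1 : ℝ) ≤ (M : ℝ) ^ ε := Real.one_le_rpow hM1 hε.le
  have hMp1 : M ≤ p := by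
    have : M ≤ M ^ 3 := Nat.le_self_pow (by norm_num) M
    omega
  have hMp3 : (M : ℤ) ^ 3 < p := by exact_mod_cast hMp
  have hsmall : S.card ≤ 9 → (S.card : ℝ) ≤ (3 * C1 + C2 + 9) * (M : ℝ) ^ ε := by
    intro h
    have h1 : (S.card : ℝ) ≤ 9 := by exact_mod_cast h
    have h2 : 0 ≤ (3 * C1 + C2) * (M : ℝ) ^ ε := by positivity
    nlinarith
  rcases S.eq_empty_or_nonempty with hSe | ⟨t0, ht0⟩
  · apply hsmall
    rw [hSe]
    simp
  by_cases hall : ∀ t ∈ S, ev t = ev t0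
  · exact hsmall (card_ev_eq t0 hp hc hMp1 hS hall)
  push Not at hall
  obtain ⟨t1, ht1, hne⟩ := hall
  have hd0 : ev t1 - ev t0 ≠ 0 := sub_ne_zero.2 hne
  obtain ⟨g, w, α, β, γ, hg, e1, e2, e3, hbez⟩ := exists_prim _ hd0
  have hcr : ∀ t ∈ S, cr w (ev t - ev t0) = 0 := by
    intro t ht
    have h1 := cr_par hu (hpar _ ht1 _ ht0) (hpar t ht _ ht0)
    unfold cr at h1 ⊢
    rw [e1, e2, e3] at h1
    have h2 := congrArg (fun s : ℤ × ℤ × ℤ => s.1) h1
    have h3 := congrArg (fun s : ℤ × ℤ × ℤ => s.2.1) h1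
    have h4 := congrArg (fun s : ℤ × ℤ × ℤ => s.2.2) h1
    simp only [Prod.fst_zero, Prod.snd_zero] at h2 h3 h4
    refine Prod.ext ?_ (Prod.ext ?_ ?_)
    · apply mul_left_cancel₀ hg
      simp only [Prod.fst_zero, mul_zero]
      linear_combination h2
    · apply mul_left_cancel₀ hg
      simp only [Prod.fst_zero, Prod.snd_zero, mul_zero]
      linear_combination h3
    · apply mul_left_cancel₀ hg
      simp only [Prod.snd_zero, mul_zero]
      linear_combination h4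
  obtain ⟨G, hG⟩ : ∃ G : ℤ → ℤ, G = fun x => w.1 - w.2.1 * x + w.2.2 * x ^ 2 := ⟨_, rfl⟩
  have hk : ∀ t ∈ S, ∃ k : ℤ, ∀ x : ℤ,
      (x - t0.1) * (x - t0.2.1) * (x - t0.2.2) - (x - t.1) * (x - t.2.1) * (x - t.2.2) =
        k * G x := by
    intro t ht
    obtain ⟨k, k1, k2, k3⟩ := eq_mul_of_prim hbez (hcr t ht)
    refine ⟨k, fun x => ?_⟩
    rw [key_identity t t0 x, k1, k2, k3, hG]
    ring
  -- the direction is not (1, 0, 0)
  have hw : w.2.1 ≠ 0 ∨ w.2.2 ≠ 0 := by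
    by_contra hcon
    push Not at hcon
    rw [hcon.1, mul_zero] at e2
    rw [hcon.2, mul_zero] at e3
    have h1 : InG p L (ev t1 - ev t0) := ev_sub_mem (hS ht1) (hS ht0)
    unfold InG at h1
    rw [e2, e3, mul_zero, mul_zero, add_zero, add_zero] at h1
    have h2 := (sol_size (hS ht1) (hS ht0)).1
    have h3 := Int.eq_zero_of_abs_lt_dvd h1 (by linarith)
    exact hd0 (Prod.ext h3 (Prod.ext e2 e3))
  obtain ⟨R, hR⟩ : ∃ R : ℤ, R = G t0.1 * G t0.2.1 * G t0.2.2 := ⟨_, rfl⟩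
  by_cases hR0 : R = 0
  · -- a common root
    obtain ⟨ρ, hρ1, hρ2⟩ : ∃ ρ : ℤ, G ρ = 0 ∧
        (ρ - t0.1) * (ρ - t0.2.1) * (ρ - t0.2.2) = 0 := by
      rw [hR] at hR0
      rcases mul_eq_zero.1 hR0 with h | h
      · rcases mul_eq_zero.1 h with h' | h'
        · exact ⟨t0.1, h', by ring⟩
        · exact ⟨t0.2.1, h', by ring⟩
      · exact ⟨t0.2.2, h, by ring⟩
    have hcoord : ∀ t ∈ S, t.1 = ρ ∨ t.2.1 = ρ ∨ t.2.2 = ρ := by
      intro t ht
      obtain ⟨k, hk'⟩ := hk t ht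
      have h1 := hk' ρ
      rw [hρ1, hρ2, mul_zero, zero_sub, neg_eq_zero] at h1
      rcases mul_eq_zero.1 h1 with h | h
      · rcases mul_eq_zero.1 h with h' | h'
        · left; linarith
        · right; left; linarith
      · right; right; linarith
    have hb3 := hfix p c L M hp hc hM hMp ρ u (S.filter (fun t => t.2.2 = ρ))
      ((filter_subset _ _).trans hS) hu (fun t ht => (mem_filter.1 ht).2)
      (fun t ht t' ht' => hpar t (mem_filter.1 ht).1 t' (mem_filter.1 ht').1)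
    have hb1 := hfix p c L M hp hc hM hMp ρ u ((S.filter (fun t => t.1 = ρ)).image rot)
      (by
        intro t ht
        rw [mem_image] at ht
        obtain ⟨s, hs, rfl⟩ := ht
        exact rot_sol (hS (mem_filter.1 hs).1)) hu
      (by
        intro t ht
        rw [mem_image] at ht
        obtain ⟨s, hs, rfl⟩ := ht
        exact (mem_filter.1 hs).2)
      (by
        intro t ht t' ht'
        rw [mem_image] at ht ht'
        obtain ⟨s, hs, rfl⟩ := ht
        obtain ⟨s', hs', rfl⟩ := ht'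
        rw [ev_rot, ev_rot]
        exact hpar s (mem_filter.1 hs).1 s' (mem_filter.1 hs').1)
    have hb2 := hfix p c L M hp hc hM hMp ρ u
      ((S.filter (fun t => t.2.1 = ρ)).image (rot ∘ rot))
      (by
        intro t ht
        rw [mem_image] at ht
        obtain ⟨s, hs, rfl⟩ := ht
        exact rot_sol (rot_sol (hS (mem_filter.1 hs).1))) hu
      (by
        intro t ht
        rw [mem_image] at ht
        obtain ⟨s, hs, rfl⟩ := ht
        exact (mem_filter.1 hs).2)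
      (by
        intro t ht t' ht'
        rw [mem_image] at ht ht'
        obtain ⟨s, hs, rfl⟩ := ht
        obtain ⟨s', hs', rfl⟩ := ht'
        simp only [Function.comp_apply]
        rw [ev_rot, ev_rot, ev_rot, ev_rot]
        exact hpar s (mem_filter.1 hs).1 s' (mem_filter.1 hs').1)
    rw [card_image_of_injective _ rot_inj] at hb1
    rw [card_image_of_injective _ (rot_inj.comp rot_inj)] at hb2
    have hsub : S ⊆ (S.filter (fun t => t.1 = ρ) ∪ S.filter (fun t => t.2.1 = ρ)) ∪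
        S.filter (fun t => t.2.2 = ρ) := by
      intro t ht
      rw [mem_union, mem_union, mem_filter, mem_filter, mem_filter]
      rcases hcoord t ht with h | h | h
      · exact Or.inl (Or.inl ⟨ht, h⟩)
      · exact Or.inl (Or.inr ⟨ht, h⟩)
      · exact Or.inr ⟨ht, h⟩
    have hcard : S.card ≤ (S.filter (fun t => t.1 = ρ)).card +
        (S.filter (fun t => t.2.1 = ρ)).card + (S.filter (fun t => t.2.2 = ρ)).card := by
      calc S.card ≤ _ := card_le_card hsub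
        _ ≤ _ := card_union_le _ _
        _ ≤ _ := Nat.add_le_add_right (card_union_le _ _) _
    have hcardR : (S.card : ℝ) ≤ ((S.filter (fun t => t.1 = ρ)).card : ℝ) +
        ((S.filter (fun t => t.2.1 = ρ)).card : ℝ) + ((S.filter (fun t => t.2.2 = ρ)).card : ℝ) := by
      exact_mod_cast hcard
    have h3 : 0 ≤ (C2 + 9) * (M : ℝ) ^ ε := by positivity
    nlinarith
  · -- divisors
    have hdvd : ∀ t ∈ S, ∀ x : ℤ, (x - t.1) * (x - t.2.1) * (x - t.2.2) = 0 → G x ∣ R := by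
      intro t ht x hx
      obtain ⟨k, hk'⟩ := hk t ht
      have h1 := hk' x
      rw [hx, sub_zero] at h1
      have hs : ∀ s : ℤ, G s = G x + (x - s) * (w.2.1 - w.2.2 * (x + s)) := by
        intro s
        rw [hG]
        ring
      refine ⟨G x ^ 2 + G x * ((x - t0.1) * (w.2.1 - w.2.2 * (x + t0.1)) +
        (x - t0.2.1) * (w.2.1 - w.2.2 * (x + t0.2.1)) +
        (x - t0.2.2) * (w.2.1 - w.2.2 * (x + t0.2.2))) +
        ((x - t0.1) * (w.2.1 - w.2.2 * (x + t0.1)) *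
          ((x - t0.2.1) * (w.2.1 - w.2.2 * (x + t0.2.1))) +
         (x - t0.1) * (w.2.1 - w.2.2 * (x + t0.1)) *
          ((x - t0.2.2) * (w.2.1 - w.2.2 * (x + t0.2.2))) +
         (x - t0.2.1) * (w.2.1 - w.2.2 * (x + t0.2.1)) *
          ((x - t0.2.2) * (w.2.1 - w.2.2 * (x + t0.2.2)))) +
        k * ((w.2.1 - w.2.2 * (x + t0.1)) * (w.2.1 - w.2.2 * (x + t0.2.1)) *
          (w.2.1 - w.2.2 * (x + t0.2.2))), ?_⟩
      rw [hR, hs t0.1, hs t0.2.1, hs t0.2.2]
      linear_combination ((w.2.1 - w.2.2 * (x + t0.1)) * (w.2.1 - w.2.2 * (x + t0.2.1)) *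
          (w.2.1 - w.2.2 * (x + t0.2.2))) * h1
    have hGx : ∀ x : ℤ, G x = w.1 - w.2.1 * x + w.2.2 * x ^ 2 := fun x => by rw [hG]
    have hcard := card_le_mul hp hc hMp1 hS
      (X := (Icc (1 : ℤ) M).filter (fun x => w.1 - w.2.1 * x + w.2.2 * x ^ 2 ∣ R))
      (Y := (Icc (1 : ℤ) M).filter (fun x => w.1 - w.2.1 * x + w.2.2 * x ^ 2 ∣ R))
      (fun t ht => by
        rw [mem_filter, mem_Icc, ← hGx]
        exact ⟨(mem_sol.1 (hS ht)).1, hdvd t ht _ (by ring)⟩)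
      (fun t ht => by
        rw [mem_filter, mem_Icc, ← hGx]
        exact ⟨(mem_sol.1 (hS ht)).2.1, hdvd t ht _ (by ring)⟩)
    have hquad := card_dvd_quad (M := M) (a := w.1) hR0 hw
    have hcard2 : S.card ≤ (4 * R.natAbs.divisors.card) ^ 2 := by
      calc S.card ≤ _ := hcard
        _ ≤ (4 * R.natAbs.divisors.card) * (4 * R.natAbs.divisors.card) :=
          Nat.mul_le_mul hquad hquad
        _ = _ := by ring
    have hg1 : 1 ≤ |g| := Int.one_le_abs hg
    obtain ⟨s1, s2, s3⟩ := sol_size (hS ht1) (hS ht0)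
    have hw1 : |w.1| ≤ (M : ℤ) ^ 3 := by
      calc |w.1| = 1 * |w.1| := by ring
        _ ≤ |g| * |w.1| := by gcongr
        _ = |(ev t1 - ev t0).1| := by rw [e1, abs_mul]
        _ ≤ _ := s1.le
    have hw2 : |w.2.1| ≤ 3 * (M : ℤ) ^ 2 := by
      calc |w.2.1| = 1 * |w.2.1| := by ring
        _ ≤ |g| * |w.2.1| := by gcongr
        _ = |(ev t1 - ev t0).2.1| := by rw [e2, abs_mul]
        _ ≤ _ := s2
    have hw3 : |w.2.2| ≤ 3 * (M : ℤ) := by
      calc |w.2.2| = 1 * |w.2.2| := by ring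
        _ ≤ |g| * |w.2.2| := by gcongr
        _ = |(ev t1 - ev t0).2.2| := by rw [e3, abs_mul]
        _ ≤ _ := s3
    have hGb : ∀ x : ℤ, 1 ≤ x → x ≤ M → |G x| ≤ 7 * (M : ℤ) ^ 3 := by
      intro x hx1 hx2
      rw [hGx]
      have hx0 : 0 ≤ x := by omega
      calc |w.1 - w.2.1 * x + w.2.2 * x ^ 2| ≤ |w.1 - w.2.1 * x| + |w.2.2 * x ^ 2| :=
            abs_add_le _ _
        _ ≤ |w.1| + |w.2.1 * x| + |w.2.2 * x ^ 2| := by
            gcongr
            exact abs_sub _ _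
        _ = |w.1| + |w.2.1| * x + |w.2.2| * x ^ 2 := by
            rw [abs_mul, abs_mul, abs_of_nonneg hx0, abs_of_nonneg (by positivity : 0 ≤ x ^ 2)]
        _ ≤ (M : ℤ) ^ 3 + (3 * (M : ℤ) ^ 2) * M + (3 * (M : ℤ)) * (M : ℤ) ^ 2 := by
            gcongr
        _ = _ := by ring
    have hRs : (|R| : ℝ) ≤ 343 * (M : ℝ) ^ 9 := by
      obtain ⟨⟨q1, q2⟩, ⟨q3, q4⟩, ⟨q5, q6⟩, -⟩ := mem_sol.1 (hS ht0)
      have : |R| ≤ 343 * (M : ℤ) ^ 9 := by
        rw [hR, abs_mul, abs_mul]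
        calc |G t0.1| * |G t0.2.1| * |G t0.2.2| ≤
              (7 * (M : ℤ) ^ 3) * (7 * (M : ℤ) ^ 3) * (7 * (M : ℤ) ^ 3) := by
              have a1 := hGb _ q1 q2
              have a2 := hGb _ q3 q4
              have a3 := hGb _ q5 q6
              gcongr
          _ = _ := by ring
      exact_mod_cast this
    have h1 := hτ M R hM hR0 hRs
    have h2 : (S.card : ℝ) ≤ (((4 * R.natAbs.divisors.card) ^ 2 : ℕ) : ℝ) := by
      exact_mod_cast hcard2
    have h3 : 0 ≤ (3 * C1 + 9) * (M : ℝ) ^ ε := by positivity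
    nlinarith

end Pool.Agent.Lib.MP_d1c37f_nt
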