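import Mathlib
import Pool.Agent.Lib.MP_d1c37f_nt.Line3

/-!
A plane on which the product of linear factors is fixed contains few solutions.
-/

set_option autoImplicit false

namespace Pool.Agent.Lib.MP_d1c37f_nt

open Finset

theorem degen_bound (ε : ℝ) (hε : 0 < ε) : ∃ C : ℝ, 0 < C ∧ ∀ (p : ℕ) (c L : ℤ) (M : ℕ),
    p.Prime → ¬ (p : ℤ) ∣ c → 1 ≤ M → M ^ 3 < p → ∀ n : ℤ × ℤ × ℤ,
      ¬ (p : ℤ) ∣ n.1 → (p : ℤ) ∣ n.1 * L - n.2.1 → n.2.1 ^ 2 = n.1 * n.2.2 →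
      |n.1| ≤ 18 * (M : ℤ) ^ 3 → |n.2.1| ≤ 18 * (M : ℤ) ^ 4 →
      (∀ t ∈ Sol p c L M, ∀ t' ∈ Sol p c L M, dt n (ev t - ev t') = 0) →
      ((Sol p c L M).card : ℝ) ≤ C * (M : ℝ) ^ ε := by
  obtain ⟨C2, hC2, hτ⟩ := tau_sq ε 46656 hε (by norm_num) 12
  refine ⟨C2 + 1, by linarith, ?_⟩
  intro p c L M hp hc hM hMp n hn hnL hdisc hA hB hplane
  have hM1 : (1 : ℝ) ≤ M := by exact_mod_cast hM
  have hMε : (1 : ℝ) ≤ (M : ℝ) ^ ε := Real.one_le_rpow hM1 hε.le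
  have hp' : Prime (p : ℤ) := Nat.prime_iff_prime_int.1 hp
  have hMp1 : M ≤ p := by
    have : M ≤ M ^ 3 := Nat.le_self_pow (by norm_num) M
    omega
  rcases (Sol p c L M).eq_empty_or_nonempty with hSe | ⟨t0, ht0⟩
  · rw [hSe, card_empty, Nat.cast_zero]
    positivity
  obtain ⟨Q, hQ⟩ : ∃ Q : ℤ, Q = (n.1 * t0.1 + n.2.1) * (n.1 * t0.2.1 + n.2.1) *
    (n.1 * t0.2.2 + n.2.1) := ⟨_, rfl⟩
  have hprod : ∀ t ∈ Sol p c L M, (n.1 * t.1 + n.2.1) * (n.1 * t.2.1 + n.2.1) *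
      (n.1 * t.2.2 + n.2.1) = Q := by
    intro t ht
    have h1 := hplane t ht t0 ht0
    unfold dt at h1
    rw [sub_fst, sub_snd, sub_trd] at h1
    unfold ev at h1
    simp only at h1
    rw [hQ]
    linear_combination n.1 ^ 2 * h1 + n.1 * (t.1 + t.2.1 + t.2.2 - (t0.1 + t0.2.1 + t0.2.2)) * hdisc
  have hne : ∀ x : ℤ, ¬ (p : ℤ) ∣ L + x → n.1 * x + n.2.1 ≠ 0 := by
    intro x hx h0
    have h1 : (p : ℤ) ∣ n.1 * (L + x) := by
      have e : n.1 * (L + x) = (n.1 * L - n.2.1) + (n.1 * x + n.2.1) := by ring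
      rw [e, h0, add_zero]
      exact hnL
    rcases hp'.dvd_or_dvd h1 with h | h
    · exact hn h
    · exact hx h
  obtain ⟨u1, u2, u3⟩ := sol_unit hc ht0
  have hQ0 : Q ≠ 0 := by
    rw [hQ]
    exact mul_ne_zero (mul_ne_zero (hne _ u1) (hne _ u2)) (hne _ u3)
  have hn0 : n.1 ≠ 0 := by
    intro h
    apply hn
    rw [h]
    exact dvd_zero _
  have hcard := card_le_mul hp hc hMp1 (S := Sol p c L M) (Subset.refl _)
    (X := (Icc (1 : ℤ) M).filter (fun x => n.1 * x + n.2.1 ∣ Q))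
    (Y := (Icc (1 : ℤ) M).filter (fun x => n.1 * x + n.2.1 ∣ Q))
    (fun t ht => by
      rw [mem_filter, mem_Icc]
      refine ⟨(mem_sol.1 ht).1, ⟨(n.1 * t.2.1 + n.2.1) * (n.1 * t.2.2 + n.2.1), ?_⟩⟩
      rw [← hprod t ht]
      ring)
    (fun t ht => by
      rw [mem_filter, mem_Icc]
      refine ⟨(mem_sol.1 ht).2.1, ⟨(n.1 * t.1 + n.2.1) * (n.1 * t.2.2 + n.2.1), ?_⟩⟩
      rw [← hprod t ht]
      ring)
  have hlin := card_dvd_lin (M := M) (b := n.2.1) hQ0 hn0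
  have hcard2 : (Sol p c L M).card ≤ (4 * Q.natAbs.divisors.card) ^ 2 := by
    calc (Sol p c L M).card ≤ _ := hcard
      _ ≤ (2 * Q.natAbs.divisors.card) * (2 * Q.natAbs.divisors.card) := Nat.mul_le_mul hlin hlin
      _ ≤ (4 * Q.natAbs.divisors.card) * (4 * Q.natAbs.divisors.card) := by
        apply Nat.mul_le_mul <;> omega
      _ = _ := by ring
  have hQs : (|Q| : ℝ) ≤ 46656 * (M : ℝ) ^ 12 := by
    obtain ⟨⟨q1, q2⟩, ⟨q3, q4⟩, ⟨q5, q6⟩, -⟩ := mem_sol.1 ht0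
    have hb : ∀ x : ℤ, 1 ≤ x → x ≤ M → |n.1 * x + n.2.1| ≤ 36 * (M : ℤ) ^ 4 := by
      intro x hx1 hx2
      have hx0 : 0 ≤ x := by omega
      calc |n.1 * x + n.2.1| ≤ |n.1 * x| + |n.2.1| := abs_add_le _ _
        _ = |n.1| * x + |n.2.1| := by rw [abs_mul, abs_of_nonneg hx0]
        _ ≤ (18 * (M : ℤ) ^ 3) * M + 18 * (M : ℤ) ^ 4 := by gcongr
        _ = _ := by ring
    have : |Q| ≤ 46656 * (M : ℤ) ^ 12 := by
      rw [hQ, abs_mul, abs_mul]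
      calc |n.1 * t0.1 + n.2.1| * |n.1 * t0.2.1 + n.2.1| * |n.1 * t0.2.2 + n.2.1| ≤
            (36 * (M : ℤ) ^ 4) * (36 * (M : ℤ) ^ 4) * (36 * (M : ℤ) ^ 4) := by
            have a1 := hb _ q1 q2
            have a2 := hb _ q3 q4
            have a3 := hb _ q5 q6
            gcongr
        _ = _ := by ring
    exact_mod_cast this
  have h1 := hτ M Q hM hQ0 hQs
  have h2 : ((Sol p c L M).card : ℝ) ≤ (((4 * Q.natAbs.divisors.card) ^ 2 : ℕ) : ℝ) := by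
    exact_mod_cast hcard2
  nlinarith

end Pool.Agent.Lib.MP_d1c37f_nt
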