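import Mathlib

/-!
Reduction of vectors in three dimensional space with the maximum norm.
-/

set_option autoImplicit false

namespace Pool.Agent.Lib.MP_d1c37f_nt

/-- the maximum norm -/
noncomputable def N3 (x y z : ℝ) : ℝ := max |x| (max |y| |z|)

theorem le_N3_1 (x y z : ℝ) : |x| ≤ N3 x y z := le_max_left _ _
theorem le_N3_2 (x y z : ℝ) : |y| ≤ N3 x y z := (le_max_left _ _).trans (le_max_right _ _)
theorem le_N3_3 (x y z : ℝ) : |z| ≤ N3 x y z := (le_max_right _ _).trans (le_max_right _ _)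

theorem N3_le {x y z r : ℝ} (h1 : |x| ≤ r) (h2 : |y| ≤ r) (h3 : |z| ≤ r) : N3 x y z ≤ r :=
  max_le h1 (max_le h2 h3)

theorem N3_nonneg (x y z : ℝ) : 0 ≤ N3 x y z := (abs_nonneg x).trans (le_N3_1 x y z)

theorem N3_rot (x y z : ℝ) : N3 y z x = N3 x y z := by
  apply le_antisymm
  · exact N3_le (le_N3_2 _ _ _) (le_N3_3 _ _ _) (le_N3_1 _ _ _)
  · exact N3_le (le_N3_3 _ _ _) (le_N3_1 _ _ _) (le_N3_2 _ _ _)

theorem N3_cases (x y z : ℝ) : |x| = N3 x y z ∨ |y| = N3 x y z ∨ |z| = N3 x y z := by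
  unfold N3
  rcases max_choice |x| (max |y| |z|) with h | h
  · left; exact h.symm
  · right
    rw [h]
    rcases max_choice |y| |z| with h' | h'
    · left; exact h'.symm
    · right; exact h'.symm

theorem cross_le (a1 a2 a3 b1 b2 b3 : ℝ) :
    N3 (a2 * b3 - a3 * b2) (a3 * b1 - a1 * b3) (a1 * b2 - a2 * b1) ≤
      2 * (N3 a1 a2 a3 * N3 b1 b2 b3) := by
  have key : ∀ x y z w : ℝ, |x| ≤ N3 a1 a2 a3 → |y| ≤ N3 b1 b2 b3 → |z| ≤ N3 a1 a2 a3 →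
      |w| ≤ N3 b1 b2 b3 → |x * y - z * w| ≤ 2 * (N3 a1 a2 a3 * N3 b1 b2 b3) := by
    intro x y z w hx hy hz hw
    have h0 := N3_nonneg a1 a2 a3
    calc |x * y - z * w| ≤ |x * y| + |z * w| := abs_sub _ _
      _ = |x| * |y| + |z| * |w| := by rw [abs_mul, abs_mul]
      _ ≤ N3 a1 a2 a3 * N3 b1 b2 b3 + N3 a1 a2 a3 * N3 b1 b2 b3 := by gcongr
      _ = _ := by ring
  exact N3_le (key _ _ _ _ (le_N3_2 _ _ _) (le_N3_3 _ _ _) (le_N3_3 _ _ _) (le_N3_2 _ _ _))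
    (key _ _ _ _ (le_N3_3 _ _ _) (le_N3_1 _ _ _) (le_N3_1 _ _ _) (le_N3_3 _ _ _))
    (key _ _ _ _ (le_N3_1 _ _ _) (le_N3_2 _ _ _) (le_N3_2 _ _ _) (le_N3_1 _ _ _))

theorem cross_ge_aux {a1 a2 a3 b1 b2 b3 : ℝ} (h1 : |a1| = N3 a1 a2 a3)
    (ha : 0 < N3 a1 a2 a3) (hab : N3 a1 a2 a3 ≤ N3 b1 b2 b3)
    (hmin : ∀ m : ℤ, N3 b1 b2 b3 ≤ N3 (b1 - m * a1) (b2 - m * a2) (b3 - m * a3)) :
    N3 a1 a2 a3 * N3 b1 b2 b3 / 2 ≤
      N3 (a2 * b3 - a3 * b2) (a3 * b1 - a1 * b3) (a1 * b2 - a2 * b1) := by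
  set l := N3 a1 a2 a3 with hl
  set c := N3 (a2 * b3 - a3 * b2) (a3 * b1 - a1 * b3) (a1 * b2 - a2 * b1) with hc
  have ha1 : a1 ≠ 0 := by
    intro h
    rw [h, abs_zero] at h1
    linarith
  obtain ⟨τ, hτ⟩ : ∃ τ : ℝ, τ = b1 / a1 := ⟨_, rfl⟩
  have hb1 : b1 = τ * a1 := by
    rw [hτ]
    field_simp
  have hround : |τ - round τ| ≤ 1 / 2 := abs_sub_round τ
  have hcoord : ∀ x : ℝ, |x| ≤ l → |(τ - round τ) * x| ≤ l / 2 := by
    intro x hx
    rw [abs_mul]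
    calc |τ - round τ| * |x| ≤ 1 / 2 * l := by gcongr
      _ = l / 2 := by ring
  have hr : ∀ x : ℝ, |a1 * x| ≤ c → |x| ≤ c / l := by
    intro x hx
    rw [abs_mul, h1] at hx
    rw [le_div_iff₀ ha]
    linarith
  have c0 : 0 ≤ c / l := div_nonneg (N3_nonneg _ _ _) ha.le
  have k := hmin (round τ)
  have e1 : |b1 - round τ * a1| ≤ l / 2 + c / l := by
    have : b1 - round τ * a1 = (τ - round τ) * a1 := by rw [hb1]; ring
    rw [this]
    have := hcoord a1 h1.le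
    linarith
  have e2 : |b2 - round τ * a2| ≤ l / 2 + c / l := by
    have h2 : b2 - round τ * a2 = (τ - round τ) * a2 + (b2 - τ * a2) := by ring
    rw [h2]
    refine (abs_add_le _ _).trans (add_le_add (hcoord a2 (le_N3_2 _ _ _)) (hr _ ?_))
    have : a1 * (b2 - τ * a2) = a1 * b2 - a2 * b1 := by rw [hb1]; ring
    rw [this]
    exact le_N3_3 _ _ _
  have e3 : |b3 - round τ * a3| ≤ l / 2 + c / l := by
    have h2 : b3 - round τ * a3 = (τ - round τ) * a3 + (b3 - τ * a3) := by ring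
    rw [h2]
    refine (abs_add_le _ _).trans (add_le_add (hcoord a3 (le_N3_3 _ _ _)) (hr _ ?_))
    have : a1 * (b3 - τ * a3) = -(a3 * b1 - a1 * b3) := by rw [hb1]; ring
    rw [this, abs_neg]
    exact le_N3_2 _ _ _
  have e4 : N3 b1 b2 b3 ≤ l / 2 + c / l := k.trans (N3_le e1 e2 e3)
  have e5 : N3 b1 b2 b3 * l ≤ (l / 2 + c / l) * l := mul_le_mul_of_nonneg_right e4 ha.le
  have e6 : (l / 2 + c / l) * l = l ^ 2 / 2 + c := by
    field_simp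
  have e7 : l ^ 2 ≤ l * N3 b1 b2 b3 := by
    rw [sq]
    exact mul_le_mul_of_nonneg_left hab ha.le
  linarith

theorem cross_ge {a1 a2 a3 b1 b2 b3 : ℝ}
    (ha : 0 < N3 a1 a2 a3) (hab : N3 a1 a2 a3 ≤ N3 b1 b2 b3)
    (hmin : ∀ m : ℤ, N3 b1 b2 b3 ≤ N3 (b1 - m * a1) (b2 - m * a2) (b3 - m * a3)) :
    N3 a1 a2 a3 * N3 b1 b2 b3 / 2 ≤
      N3 (a2 * b3 - a3 * b2) (a3 * b1 - a1 * b3) (a1 * b2 - a2 * b1) := by
  rcases N3_cases a1 a2 a3 with h | h | h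
  · exact cross_ge_aux h ha hab hmin
  · have ea := N3_rot a1 a2 a3
    have eb := N3_rot b1 b2 b3
    have ec := N3_rot (a2 * b3 - a3 * b2) (a3 * b1 - a1 * b3) (a1 * b2 - a2 * b1)
    have := cross_ge_aux (a1 := a2) (a2 := a3) (a3 := a1) (b1 := b2) (b2 := b3) (b3 := b1)
      (h.trans ea.symm) (ea.symm ▸ ha) (by rw [ea, eb]; exact hab)
      (fun m => by
        rw [eb, N3_rot (b1 - m * a1) (b2 - m * a2) (b3 - m * a3)]
        exact hmin m)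
    rw [ea, eb, ec] at this
    exact this
  · have ea := (N3_rot a3 a1 a2).symm
    have eb := (N3_rot b3 b1 b2).symm
    have ec := (N3_rot (a1 * b2 - a2 * b1) (a2 * b3 - a3 * b2) (a3 * b1 - a1 * b3)).symm
    have := cross_ge_aux (a1 := a3) (a2 := a1) (a3 := a2) (b1 := b3) (b2 := b1) (b3 := b2)
      (h.trans ea.symm) (ea.symm ▸ ha) (by rw [ea, eb]; exact hab)
      (fun m => by
        rw [eb, (N3_rot (b3 - m * a3) (b1 - m * a1) (b2 - m * a2)).symm]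
        exact hmin m)
    rw [ea, eb, ec] at this
    exact this

theorem beta_ge_aux {a1 a2 a3 b1 b2 b3 p1 p2 p3 β : ℝ} (h1 : |a1| = N3 a1 a2 a3)
    (ha : 0 < N3 a1 a2 a3) (hab : N3 a1 a2 a3 ≤ N3 b1 b2 b3)
    (c2 : a3 * p1 - a1 * p3 = β * (a3 * b1 - a1 * b3))
    (c3 : a1 * p2 - a2 * p1 = β * (a1 * b2 - a2 * b1))
    (hmin : ∀ m : ℤ, N3 b1 b2 b3 ≤ N3 (p1 - m * a1) (p2 - m * a2) (p3 - m * a3)) :
    1 / 2 ≤ |β| := by
  set l := N3 a1 a2 a3 with hl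
  have ha1 : a1 ≠ 0 := by
    intro h
    rw [h, abs_zero] at h1
    linarith
  obtain ⟨α, hα⟩ : ∃ α : ℝ, α = (p1 - β * b1) / a1 := ⟨_, rfl⟩
  have q1 : p1 = α * a1 + β * b1 := by
    rw [hα]
    field_simp
    ring
  have q2 : p2 = α * a2 + β * b2 := by
    apply mul_left_cancel₀ ha1
    rw [q1] at c3
    linear_combination c3
  have q3 : p3 = α * a3 + β * b3 := by
    apply mul_left_cancel₀ ha1
    rw [q1] at c2
    linear_combination (-1) * c2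
  have hround : |α - round α| ≤ 1 / 2 := abs_sub_round α
  have hcoord : ∀ x y : ℝ, |x| ≤ l → |y| ≤ N3 b1 b2 b3 →
      |(α - round α) * x + β * y| ≤ l / 2 + |β| * N3 b1 b2 b3 := by
    intro x y hx hy
    refine (abs_add_le _ _).trans ?_
    rw [abs_mul, abs_mul]
    calc |α - round α| * |x| + |β| * |y| ≤ 1 / 2 * l + |β| * N3 b1 b2 b3 := by gcongr
      _ = _ := by ring
  have k := hmin (round α)
  have f1 : p1 - round α * a1 = (α - round α) * a1 + β * b1 := by rw [q1]; ring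
  have f2 : p2 - round α * a2 = (α - round α) * a2 + β * b2 := by rw [q2]; ring
  have f3 : p3 - round α * a3 = (α - round α) * a3 + β * b3 := by rw [q3]; ring
  rw [f1, f2, f3] at k
  have k2 := k.trans (N3_le (hcoord a1 b1 h1.le (le_N3_1 _ _ _))
    (hcoord a2 b2 (le_N3_2 _ _ _) (le_N3_2 _ _ _)) (hcoord a3 b3 (le_N3_3 _ _ _) (le_N3_3 _ _ _)))
  by_contra hcon
  rw [not_le] at hcon
  have hb : 0 < N3 b1 b2 b3 := by linarith
  nlinarith

theorem beta_ge {a1 a2 a3 b1 b2 b3 p1 p2 p3 β : ℝ}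
    (ha : 0 < N3 a1 a2 a3) (hab : N3 a1 a2 a3 ≤ N3 b1 b2 b3)
    (c1 : a2 * p3 - a3 * p2 = β * (a2 * b3 - a3 * b2))
    (c2 : a3 * p1 - a1 * p3 = β * (a3 * b1 - a1 * b3))
    (c3 : a1 * p2 - a2 * p1 = β * (a1 * b2 - a2 * b1))
    (hmin : ∀ m : ℤ, N3 b1 b2 b3 ≤ N3 (p1 - m * a1) (p2 - m * a2) (p3 - m * a3)) :
    1 / 2 ≤ |β| := by
  rcases N3_cases a1 a2 a3 with h | h | h
  · exact beta_ge_aux h ha hab c2 c3 hmin
  · have ea := N3_rot a1 a2 a3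
    have eb := N3_rot b1 b2 b3
    exact beta_ge_aux (a1 := a2) (a2 := a3) (a3 := a1) (b1 := b2) (b2 := b3) (b3 := b1)
      (p1 := p2) (p2 := p3) (p3 := p1)
      (h.trans ea.symm) (ea.symm ▸ ha) (by rw [ea, eb]; exact hab) c3 c1
      (fun m => by
        rw [eb, N3_rot (p1 - m * a1) (p2 - m * a2) (p3 - m * a3)]
        exact hmin m)
  · have ea := (N3_rot a3 a1 a2).symm
    have eb := (N3_rot b3 b1 b2).symm
    exact beta_ge_aux (a1 := a3) (a2 := a1) (a3 := a2) (b1 := b3) (b2 := b1) (b3 := b2)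
      (p1 := p3) (p2 := p1) (p3 := p2)
      (h.trans ea.symm) (ea.symm ▸ ha) (by rw [ea, eb]; exact hab) c1 c2
      (fun m => by
        rw [eb, (N3_rot (p3 - m * a3) (p1 - m * a1) (p2 - m * a2)).symm]
        exact hmin m)

end Pool.Agent.Lib.MP_d1c37f_nt
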