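import Mathlib
import Pool.Agent.Lib.MP_d1c37f_nt.Line3
import Pool.Agent.Lib.MP_d1c37f_nt.Real3

/-!
The lattice: short vectors, cross products, determinants.
-/

set_option autoImplicit false

namespace Pool.Agent.Lib.MP_d1c37f_nt

open Finset

variable {p : ℕ} {c L : ℤ} {M : ℕ}

theorem nm_eq (M : ℕ) (v : ℤ × ℤ × ℤ) :
    nm M v = N3 ((v.1 : ℝ) / (M : ℝ) ^ 3) ((v.2.1 : ℝ) / (M : ℝ) ^ 2) ((v.2.2 : ℝ) / (M : ℝ)) := by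
  unfold nm N3
  rw [abs_div, abs_div, abs_div, abs_of_nonneg (by positivity : (0 : ℝ) ≤ (M : ℝ) ^ 3),
    abs_of_nonneg (by positivity : (0 : ℝ) ≤ (M : ℝ) ^ 2),
    abs_of_nonneg (by positivity : (0 : ℝ) ≤ (M : ℝ))]

theorem nc_eq (hM : 1 ≤ M) (v w : ℤ × ℤ × ℤ) :
    nc M (cr v w) = N3
      ((v.2.1 : ℝ) / (M : ℝ) ^ 2 * ((w.2.2 : ℝ) / (M : ℝ)) -
        (v.2.2 : ℝ) / (M : ℝ) * ((w.2.1 : ℝ) / (M : ℝ) ^ 2))
      ((v.2.2 : ℝ) / (M : ℝ) * ((w.1 : ℝ) / (M : ℝ) ^ 3) -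
        (v.1 : ℝ) / (M : ℝ) ^ 3 * ((w.2.2 : ℝ) / (M : ℝ)))
      ((v.1 : ℝ) / (M : ℝ) ^ 3 * ((w.2.1 : ℝ) / (M : ℝ) ^ 2) -
        (v.2.1 : ℝ) / (M : ℝ) ^ 2 * ((w.1 : ℝ) / (M : ℝ) ^ 3)) := by
  have hM0 : (0 : ℝ) < M := by exact_mod_cast hM
  have e1 : (v.2.1 : ℝ) / (M : ℝ) ^ 2 * ((w.2.2 : ℝ) / (M : ℝ)) -
        (v.2.2 : ℝ) / (M : ℝ) * ((w.2.1 : ℝ) / (M : ℝ) ^ 2) = ((cr v w).1 : ℝ) / (M : ℝ) ^ 3 := by
    unfold cr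
    push_cast
    field_simp
  have e2 : (v.2.2 : ℝ) / (M : ℝ) * ((w.1 : ℝ) / (M : ℝ) ^ 3) -
        (v.1 : ℝ) / (M : ℝ) ^ 3 * ((w.2.2 : ℝ) / (M : ℝ)) = ((cr v w).2.1 : ℝ) / (M : ℝ) ^ 4 := by
    unfold cr
    push_cast
    field_simp
  have e3 : (v.1 : ℝ) / (M : ℝ) ^ 3 * ((w.2.1 : ℝ) / (M : ℝ) ^ 2) -
        (v.2.1 : ℝ) / (M : ℝ) ^ 2 * ((w.1 : ℝ) / (M : ℝ) ^ 3) =
        ((cr v w).2.2 : ℝ) / (M : ℝ) ^ 5 := by
    unfold cr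
    push_cast
    field_simp
  rw [e1, e2, e3]
  unfold nc N3
  rw [abs_div, abs_div, abs_div, abs_of_nonneg (by positivity : (0 : ℝ) ≤ (M : ℝ) ^ 3),
    abs_of_nonneg (by positivity : (0 : ℝ) ≤ (M : ℝ) ^ 4),
    abs_of_nonneg (by positivity : (0 : ℝ) ≤ (M : ℝ) ^ 5)]

theorem nm_nonneg (M : ℕ) (v : ℤ × ℤ × ℤ) : 0 ≤ nm M v := by
  rw [nm_eq]
  exact N3_nonneg _ _ _

theorem nm_1 (hM : 1 ≤ M) (v : ℤ × ℤ × ℤ) : |(v.1 : ℝ)| ≤ nm M v * (M : ℝ) ^ 3 := by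
  have hM0 : (0 : ℝ) < M := by exact_mod_cast hM
  rw [← div_le_iff₀ (by positivity)]
  exact le_max_left _ _

theorem nm_2 (hM : 1 ≤ M) (v : ℤ × ℤ × ℤ) : |(v.2.1 : ℝ)| ≤ nm M v * (M : ℝ) ^ 2 := by
  have hM0 : (0 : ℝ) < M := by exact_mod_cast hM
  rw [← div_le_iff₀ (by positivity)]
  exact (le_max_left _ _).trans (le_max_right _ _)

theorem nm_3 (hM : 1 ≤ M) (v : ℤ × ℤ × ℤ) : |(v.2.2 : ℝ)| ≤ nm M v * (M : ℝ) := by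
  have hM0 : (0 : ℝ) < M := by exact_mod_cast hM
  rw [← div_le_iff₀ (by positivity)]
  exact (le_max_right _ _).trans (le_max_right _ _)

theorem nc_1 (hM : 1 ≤ M) (v : ℤ × ℤ × ℤ) : |(v.1 : ℝ)| ≤ nc M v * (M : ℝ) ^ 3 := by
  have hM0 : (0 : ℝ) < M := by exact_mod_cast hM
  rw [← div_le_iff₀ (by positivity)]
  exact le_max_left _ _

theorem nc_2 (hM : 1 ≤ M) (v : ℤ × ℤ × ℤ) : |(v.2.1 : ℝ)| ≤ nc M v * (M : ℝ) ^ 4 := by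
  have hM0 : (0 : ℝ) < M := by exact_mod_cast hM
  rw [← div_le_iff₀ (by positivity)]
  exact (le_max_left _ _).trans (le_max_right _ _)

theorem nc_3 (hM : 1 ≤ M) (v : ℤ × ℤ × ℤ) : |(v.2.2 : ℝ)| ≤ nc M v * (M : ℝ) ^ 5 := by
  have hM0 : (0 : ℝ) < M := by exact_mod_cast hM
  rw [← div_le_iff₀ (by positivity)]
  exact (le_max_right _ _).trans (le_max_right _ _)

theorem nc_nonneg (M : ℕ) (v : ℤ × ℤ × ℤ) : 0 ≤ nc M v :=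
  (by positivity : (0 : ℝ) ≤ |(v.1 : ℝ)| / (M : ℝ) ^ 3).trans (le_max_left _ _)

theorem nm_pos (hM : 1 ≤ M) {v : ℤ × ℤ × ℤ} (hv : v ≠ 0) : 0 < nm M v := by
  have hM0 : (0 : ℝ) < M := by exact_mod_cast hM
  rcases (nm_nonneg M v).lt_or_eq with h | h
  · exact h
  · exfalso
    apply hv
    have h1 := nm_1 hM v
    have h2 := nm_2 hM v
    have h3 := nm_3 hM v
    rw [← h, zero_mul] at h1 h2 h3
    have g1 : (v.1 : ℝ) = 0 := abs_eq_zero.1 (le_antisymm h1 (abs_nonneg _))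
    have g2 : (v.2.1 : ℝ) = 0 := abs_eq_zero.1 (le_antisymm h2 (abs_nonneg _))
    have g3 : (v.2.2 : ℝ) = 0 := abs_eq_zero.1 (le_antisymm h3 (abs_nonneg _))
    exact Prod.ext (by exact_mod_cast g1) (Prod.ext (by exact_mod_cast g2) (by exact_mod_cast g3))

theorem nm_sub_le (hM : 1 ≤ M) {t t' : ℤ × ℤ × ℤ} (ht : t ∈ Sol p c L M)
    (ht' : t' ∈ Sol p c L M) : nm M (ev t - ev t') ≤ 3 := by
  have hM0 : (0 : ℝ) < M := by exact_mod_cast hM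
  obtain ⟨h1, h2, h3⟩ := sol_size ht ht'
  have g1 : |((ev t - ev t').1 : ℝ)| ≤ (M : ℝ) ^ 3 := by exact_mod_cast h1.le
  have g2 : |((ev t - ev t').2.1 : ℝ)| ≤ 3 * (M : ℝ) ^ 2 := by exact_mod_cast h2
  have g3 : |((ev t - ev t').2.2 : ℝ)| ≤ 3 * (M : ℝ) := by exact_mod_cast h3
  refine max_le ?_ (max_le ?_ ?_)
  · rw [div_le_iff₀ (by positivity)]
    have : 0 < (M : ℝ) ^ 3 := by positivity
    linarith
  · rw [div_le_iff₀ (by positivity)]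
    exact g2
  · rw [div_le_iff₀ (by positivity)]
    exact g3

theorem nc_cr_le (hM : 1 ≤ M) (v w : ℤ × ℤ × ℤ) : nc M (cr v w) ≤ 2 * (nm M v * nm M w) := by
  rw [nc_eq hM, nm_eq M v, nm_eq M w]
  exact cross_le _ _ _ _ _ _

theorem nm_sub_smul (M : ℕ) (v w : ℤ × ℤ × ℤ) (m : ℤ) : nm M (w - m • v) =
    N3 ((w.1 : ℝ) / (M : ℝ) ^ 3 - m * ((v.1 : ℝ) / (M : ℝ) ^ 3))
      ((w.2.1 : ℝ) / (M : ℝ) ^ 2 - m * ((v.2.1 : ℝ) / (M : ℝ) ^ 2))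
      ((w.2.2 : ℝ) / (M : ℝ) - m * ((v.2.2 : ℝ) / (M : ℝ))) := by
  rw [nm_eq, sub_fst, sub_snd, sub_trd]
  simp only [Prod.smul_fst, Prod.smul_snd, smul_eq_mul]
  push_cast
  congr 1 <;> ring

theorem nc_cr_ge (hM : 1 ≤ M) {v w : ℤ × ℤ × ℤ} (hv : v ≠ 0) (hvw : nm M v ≤ nm M w)
    (hmin : ∀ m : ℤ, nm M w ≤ nm M (w - m • v)) :
    nm M v * nm M w / 2 ≤ nc M (cr v w) := by
  have h0 := nm_pos hM hv
  rw [nm_eq M v] at h0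
  rw [nm_eq M v, nm_eq M w] at hvw
  rw [nc_eq hM, nm_eq M v, nm_eq M w]
  refine cross_ge h0 hvw fun m => ?_
  rw [← nm_eq M w, ← nm_sub_smul]
  exact hmin m

/-- determinants -/
theorem dt_le (hM : 1 ≤ M) (n w : ℤ × ℤ × ℤ) :
    |(dt n w : ℝ)| ≤ 3 * (nc M n * nm M w) * (M : ℝ) ^ 6 := by
  have hM0 : (0 : ℝ) < M := by exact_mod_cast hM
  have n0 := nc_nonneg M n
  have m0 := nm_nonneg M w
  unfold dt
  push_cast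
  calc |(n.1 : ℝ) * w.1 + n.2.1 * w.2.1 + n.2.2 * w.2.2| ≤
        |(n.1 : ℝ) * w.1| + |(n.2.1 : ℝ) * w.2.1| + |(n.2.2 : ℝ) * w.2.2| := by
        refine (abs_add_le _ _).trans ?_
        exact add_le_add_left (abs_add_le _ _) _
    _ = |(n.1 : ℝ)| * |(w.1 : ℝ)| + |(n.2.1 : ℝ)| * |(w.2.1 : ℝ)| +
        |(n.2.2 : ℝ)| * |(w.2.2 : ℝ)| := by rw [abs_mul, abs_mul, abs_mul]
    _ ≤ (nc M n * (M : ℝ) ^ 3) * (nm M w * (M : ℝ) ^ 3) +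
        (nc M n * (M : ℝ) ^ 4) * (nm M w * (M : ℝ) ^ 2) +
        (nc M n * (M : ℝ) ^ 5) * (nm M w * (M : ℝ)) := by
        have h1 := nc_1 hM n
        have h2 := nc_2 hM n
        have h3 := nc_3 hM n
        have g1 := nm_1 hM w
        have g2 := nm_2 hM w
        have g3 := nm_3 hM w
        gcongr
    _ = _ := by ring

theorem dt_dvd {v w u : ℤ × ℤ × ℤ} (hv : InG p L v) (hw : InG p L w) (hu : InG p L u) :
    (p : ℤ) ∣ dt (cr v w) u := by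
  unfold InG at hv hw hu
  obtain ⟨a, ha⟩ := hv
  obtain ⟨b, hb⟩ := hw
  obtain ⟨d, hd⟩ := hu
  refine ⟨a * (w.2.1 * u.2.2 - w.2.2 * u.2.1) - b * (v.2.1 * u.2.2 - v.2.2 * u.2.1) +
    d * (v.2.1 * w.2.2 - v.2.2 * w.2.1), ?_⟩
  unfold dt cr
  simp only
  linear_combination (w.2.1 * u.2.2 - w.2.2 * u.2.1) * ha -
    (v.2.1 * u.2.2 - v.2.2 * u.2.1) * hb + (v.2.1 * w.2.2 - v.2.2 * w.2.1) * hd

theorem cr_dvd1 {v w : ℤ × ℤ × ℤ} (hv : InG p L v) (hw : InG p L w) :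
    (p : ℤ) ∣ (cr v w).1 * L - (cr v w).2.1 := by
  unfold InG at hv hw
  obtain ⟨a, ha⟩ := hv
  obtain ⟨b, hb⟩ := hw
  refine ⟨a * w.2.2 - b * v.2.2, ?_⟩
  unfold cr
  simp only
  linear_combination w.2.2 * ha - v.2.2 * hb

theorem cr_dvd2 {v w : ℤ × ℤ × ℤ} (hv : InG p L v) (hw : InG p L w) :
    (p : ℤ) ∣ (cr v w).1 * L ^ 2 - (cr v w).2.2 := by
  unfold InG at hv hw
  obtain ⟨a, ha⟩ := hv
  obtain ⟨b, hb⟩ := hw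
  refine ⟨b * v.2.1 - a * w.2.1, ?_⟩
  unfold cr
  simp only
  linear_combination v.2.1 * hb - w.2.1 * ha

/-- minimal vectors -/
theorem exists_min (hM : 1 ≤ M) (P : ℤ × ℤ × ℤ → Prop) (hP : ∃ w, P w ∧ nm M w ≤ 3) :
    ∃ v, P v ∧ nm M v ≤ 3 ∧ ∀ w, P w → nm M v ≤ nm M w := by
  classical
  obtain ⟨w₀, hw₀, hw₀3⟩ := hP
  set F : Finset (ℤ × ℤ × ℤ) := ((Icc (-(3 * (M : ℤ) ^ 3)) (3 * (M : ℤ) ^ 3)) ×ˢ
    ((Icc (-(3 * (M : ℤ) ^ 2)) (3 * (M : ℤ) ^ 2)) ×ˢ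
      (Icc (-(3 * (M : ℤ))) (3 * (M : ℤ))))).filter (fun v => P v) with hF
  have hmem : ∀ w, P w → nm M w ≤ 3 → w ∈ F := by
    intro w hw hw3
    rw [hF, mem_filter, mem_product, mem_product, mem_Icc, mem_Icc, mem_Icc]
    have h1 := (nm_1 hM w).trans (mul_le_mul_of_nonneg_right hw3 (by positivity))
    have h2 := (nm_2 hM w).trans (mul_le_mul_of_nonneg_right hw3 (by positivity))
    have h3 := (nm_3 hM w).trans (mul_le_mul_of_nonneg_right hw3 (by positivity))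
    have g1 : |w.1| ≤ 3 * (M : ℤ) ^ 3 := by exact_mod_cast h1
    have g2 : |w.2.1| ≤ 3 * (M : ℤ) ^ 2 := by exact_mod_cast h2
    have g3 : |w.2.2| ≤ 3 * (M : ℤ) := by exact_mod_cast h3
    exact ⟨⟨abs_le.1 g1, abs_le.1 g2, abs_le.1 g3⟩, hw⟩
  obtain ⟨v, hv, hvmin⟩ := exists_min_image F (nm M) ⟨w₀, hmem w₀ hw₀ hw₀3⟩
  refine ⟨v, (mem_filter.1 hv).2, (hvmin w₀ (hmem w₀ hw₀ hw₀3)).trans hw₀3, ?_⟩
  intro w hw
  by_cases h3 : nm M w ≤ 3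
  · exact hvmin w (hmem w hw h3)
  · exact ((hvmin w₀ (hmem w₀ hw₀ hw₀3)).trans hw₀3).trans (not_le.1 h3).le

/-- pigeonhole principle -/
theorem exists_short (hp : p.Prime) (hM : 1 ≤ M) (L : ℤ) (κ : ℝ) (hκ0 : 0 < κ)
    (hκ : (p : ℝ) ≤ κ ^ 3 * (M : ℝ) ^ 6) : ∃ w : ℤ × ℤ × ℤ, w ≠ 0 ∧ InG p L w ∧ nm M w ≤ κ := by
  have hM0 : (0 : ℝ) < M := by exact_mod_cast hM
  set B : Finset (ℕ × ℕ × ℕ) := range (⌊κ * (M : ℝ) ^ 3⌋₊ + 1) ×ˢ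
    (range (⌊κ * (M : ℝ) ^ 2⌋₊ + 1) ×ˢ range (⌊κ * (M : ℝ)⌋₊ + 1)) with hB
  have : NeZero p := ⟨hp.ne_zero⟩
  have hcard : (univ : Finset (ZMod p)).card < B.card := by
    rw [card_univ, ZMod.card, hB, card_product, card_product, card_range, card_range, card_range]
    have h1 : κ * (M : ℝ) ^ 3 < ((⌊κ * (M : ℝ) ^ 3⌋₊ + 1 : ℕ) : ℝ) := by
      push_cast
      exact Nat.lt_floor_add_one _
    have h2 : κ * (M : ℝ) ^ 2 < ((⌊κ * (M : ℝ) ^ 2⌋₊ + 1 : ℕ) : ℝ) := by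
      push_cast
      exact Nat.lt_floor_add_one _
    have h3 : κ * (M : ℝ) < ((⌊κ * (M : ℝ)⌋₊ + 1 : ℕ) : ℝ) := by
      push_cast
      exact Nat.lt_floor_add_one _
    have h4 : (p : ℝ) < (((⌊κ * (M : ℝ) ^ 3⌋₊ + 1) * ((⌊κ * (M : ℝ) ^ 2⌋₊ + 1) *
        (⌊κ * (M : ℝ)⌋₊ + 1)) : ℕ) : ℝ) := by
      rw [Nat.cast_mul, Nat.cast_mul]
      calc (p : ℝ) ≤ κ ^ 3 * (M : ℝ) ^ 6 := hκ
        _ = (κ * (M : ℝ) ^ 3) * ((κ * (M : ℝ) ^ 2) * (κ * (M : ℝ))) := by ring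
        _ < _ := by
          apply mul_lt_mul h1 _ (by positivity) (by positivity)
          exact (mul_lt_mul h2 h3.le (by positivity) (by positivity)).le
    exact_mod_cast h4
  obtain ⟨x, hx, y, hy, hxy, hf⟩ := exists_ne_map_eq_of_card_lt_of_maps_to hcard
    (f := fun x : ℕ × ℕ × ℕ => (((x.1 : ℤ) + L * x.2.1 + L ^ 2 * x.2.2 : ℤ) : ZMod p))
    (fun x _ => mem_univ _)
  refine ⟨((x.1 : ℤ) - y.1, (x.2.1 : ℤ) - y.2.1, (x.2.2 : ℤ) - y.2.2), ?_, ?_, ?_⟩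
  · intro h
    simp only [Prod.mk_eq_zero] at h
    apply hxy
    refine Prod.ext ?_ (Prod.ext ?_ ?_)
    · have := h.1; omega
    · have := h.2.1; omega
    · have := h.2.2; omega
  · unfold InG
    simp only
    have h1 := (ZMod.intCast_eq_intCast_iff_dvd_sub _ _ _).1 hf.symm
    have e : (x.1 : ℤ) - y.1 + L * ((x.2.1 : ℤ) - y.2.1) + L ^ 2 * ((x.2.2 : ℤ) - y.2.2) =
      ((x.1 : ℤ) + L * x.2.1 + L ^ 2 * x.2.2) - ((y.1 : ℤ) + L * y.2.1 + L ^ 2 * y.2.2) := by ring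
    rw [e]
    exact h1
  · rw [hB, mem_product, mem_product, mem_range, mem_range, mem_range] at hx hy
    have key : ∀ (r : ℝ) (i j : ℕ), 0 ≤ r → i < ⌊r⌋₊ + 1 → j < ⌊r⌋₊ + 1 →
        |(((i : ℤ) - (j : ℤ) : ℤ) : ℝ)| ≤ r := by
      intro r i j hr hi hj
      have h1 : (i : ℝ) ≤ r := (Nat.cast_le.2 (by omega)).trans (Nat.floor_le hr)
      have h2 : (j : ℝ) ≤ r := (Nat.cast_le.2 (by omega)).trans (Nat.floor_le hr)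
      have h3 : (0 : ℝ) ≤ i := Nat.cast_nonneg i
      have h4 : (0 : ℝ) ≤ j := Nat.cast_nonneg j
      push_cast
      rw [abs_le]
      constructor <;> linarith
    refine max_le ?_ (max_le ?_ ?_)
    · rw [div_le_iff₀ (by positivity)]
      exact key _ _ _ (by positivity) hx.1 hy.1
    · rw [div_le_iff₀ (by positivity)]
      exact key _ _ _ (by positivity) hx.2.1 hy.2.1
    · rw [div_le_iff₀ (by positivity)]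
      exact key _ _ _ (by positivity) hx.2.2 hy.2.2

end Pool.Agent.Lib.MP_d1c37f_nt
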