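import Mathlib
import Pool.Agent.Lib.MP_d1c37f_nt.Lattice

/-!
Number of lines in a plane, number of planes.
-/

set_option autoImplicit false

namespace Pool.Agent.Lib.MP_d1c37f_nt

open Finset

variable {p : ℕ} {c L : ℤ} {M : ℕ}

/-- counting by the values of a bounded integer function -/
theorem fibre_count {α : Type*} [DecidableEq α] (S : Finset α) (f : α → ℤ) {x B : ℝ}
    (hx : 0 ≤ x) (hB : 0 ≤ B) (hf : ∀ t ∈ S, |(f t : ℝ)| ≤ x)
    (hfib : ∀ k : ℤ, ((S.filter (fun t => f t = k)).card : ℝ) ≤ B) :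
    (S.card : ℝ) ≤ (2 * x + 1) * B := by
  have h1 : S.card = ∑ k ∈ S.image f, (S.filter (fun t => f t = k)).card :=
    card_eq_sum_card_image f S
  have h2 : (S.card : ℝ) ≤ ((S.image f).card : ℝ) * B := by
    rw [h1]
    push_cast
    calc ∑ k ∈ S.image f, ((S.filter (fun t => f t = k)).card : ℝ) ≤ ∑ _k ∈ S.image f, B :=
          sum_le_sum fun k _ => hfib k
      _ = _ := by rw [sum_const, nsmul_eq_mul]
  have h3 : S.image f ⊆ Icc (-⌊x⌋) ⌊x⌋ := by
    intro k hk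
    rw [mem_image] at hk
    obtain ⟨t, ht, rfl⟩ := hk
    rw [mem_Icc]
    have := abs_le.1 (hf t ht)
    constructor
    · have h4 : -(f t) ≤ ⌊x⌋ := by
        rw [Int.le_floor]
        push_cast
        linarith
      linarith
    · rw [Int.le_floor]
      exact this.2
  have h4 : ((S.image f).card : ℝ) ≤ 2 * x + 1 := by
    have h5 := card_le_card h3
    rw [Int.card_Icc] at h5
    have h6 : 0 ≤ ⌊x⌋ := Int.floor_nonneg.2 hx
    have h7 : ((⌊x⌋ + 1 - -⌊x⌋).toNat : ℤ) = 2 * ⌊x⌋ + 1 := by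
      rw [Int.toNat_of_nonneg (by omega)]
      ring
    have h8 : ((S.image f).card : ℤ) ≤ 2 * ⌊x⌋ + 1 := by
      rw [← h7]
      exact_mod_cast h5
    have h9 : ((S.image f).card : ℝ) ≤ 2 * (⌊x⌋ : ℝ) + 1 := by exact_mod_cast h8
    have h10 : (⌊x⌋ : ℝ) ≤ x := Int.floor_le x
    linarith
  exact h2.trans (mul_le_mul_of_nonneg_right h4 hB)

/-- the coordinate transversal to the first minimum -/
theorem beta_int (hM : 1 ≤ M) {v w P : ℤ × ℤ × ℤ} (hv : v ≠ 0) (hvw : nm M v ≤ nm M w)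
    {β : ℝ}
    (hβ : (((cr v P).1 : ℝ) = β * (cr v w).1) ∧ (((cr v P).2.1 : ℝ) = β * (cr v w).2.1) ∧
      (((cr v P).2.2 : ℝ) = β * (cr v w).2.2))
    (hmin : ∀ m : ℤ, nm M w ≤ nm M (P - m • v)) : 1 / 2 ≤ |β| := by
  have hM0 : (0 : ℝ) < M := by exact_mod_cast hM
  have h0 := nm_pos hM hv
  rw [nm_eq M v] at h0
  rw [nm_eq M v, nm_eq M w] at hvw
  obtain ⟨b1, b2, b3⟩ := hβ
  unfold cr at b1 b2 b3
  push_cast at b1 b2 b3
  refine beta_ge (a1 := (v.1 : ℝ) / (M : ℝ) ^ 3) (a2 := (v.2.1 : ℝ) / (M : ℝ) ^ 2)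
    (a3 := (v.2.2 : ℝ) / (M : ℝ)) (b1 := (w.1 : ℝ) / (M : ℝ) ^ 3)
    (b2 := (w.2.1 : ℝ) / (M : ℝ) ^ 2) (b3 := (w.2.2 : ℝ) / (M : ℝ))
    (p1 := (P.1 : ℝ) / (M : ℝ) ^ 3) (p2 := (P.2.1 : ℝ) / (M : ℝ) ^ 2)
    (p3 := (P.2.2 : ℝ) / (M : ℝ)) h0 hvw ?_ ?_ ?_ fun m => ?_
  · field_simp
    linear_combination b1
  · field_simp
    linear_combination b2
  · field_simp
    linear_combination b3
  · rw [← nm_eq M w, ← nm_sub_smul]
    exact hmin m

theorem cr_sub (v a b : ℤ × ℤ × ℤ) : cr v (a - b) = cr v a - cr v b := by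
  simp only [cr, Prod.mk_sub_mk, sub_fst, sub_snd, sub_trd, Prod.mk.injEq]
  refine ⟨by ring, by ring, by ring⟩

theorem cr_sub_smul (v a : ℤ × ℤ × ℤ) (m : ℤ) : cr v (a - m • v) = cr v a := by
  unfold cr
  simp only [sub_fst, sub_snd, sub_trd, Prod.smul_fst, Prod.smul_snd, smul_eq_mul]
  refine Prod.ext ?_ (Prod.ext ?_ ?_)
  · simp only
    ring
  · simp only
    ring
  · simp only
    ring

/-- `(v × P) × (v × w) = 0` in the plane of `v` and `w` -/
theorem cr_cr {v w P : ℤ × ℤ × ℤ} (h : dt (cr v w) P = 0) :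
    cr (cr v P) (cr v w) = 0 := by
  unfold dt cr at h
  simp only at h
  unfold cr
  simp only
  refine Prod.ext ?_ (Prod.ext ?_ ?_)
  · simp only [Prod.fst_zero]
    linear_combination (-v.1) * h
  · simp only [Prod.fst_zero, Prod.snd_zero]
    linear_combination (-v.2.1) * h
  · simp only [Prod.snd_zero]
    linear_combination (-v.2.2) * h

/-- the coordinate in which a vector is largest -/
theorem exists_coord (hM : 1 ≤ M) (n : ℤ × ℤ × ℤ) : ∃ (F : ℤ × ℤ × ℤ → ℤ) (s : ℝ), 0 < s ∧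
    |(F n : ℝ)| = nc M n * s ∧ (∀ u, |(F u : ℝ)| ≤ nc M u * s) ∧ (∀ u u', F (u - u') = F u - F u') ∧
    (∀ u, cr u n = 0 → u.1 * F n = F u * n.1 ∧ u.2.1 * F n = F u * n.2.1 ∧
      u.2.2 * F n = F u * n.2.2) := by
  have hM0 : (0 : ℝ) < M := by exact_mod_cast hM
  have hsplit : ∀ u : ℤ × ℤ × ℤ, cr u n = 0 → u.2.1 * n.2.2 - u.2.2 * n.2.1 = 0 ∧
      u.2.2 * n.1 - u.1 * n.2.2 = 0 ∧ u.1 * n.2.1 - u.2.1 * n.1 = 0 := by
    intro u hu
    unfold cr at hu
    simp only [Prod.mk_eq_zero] at hu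
    exact hu
  have hc : nc M n = |(n.1 : ℝ)| / (M : ℝ) ^ 3 ∨ nc M n = |(n.2.1 : ℝ)| / (M : ℝ) ^ 4 ∨
      nc M n = |(n.2.2 : ℝ)| / (M : ℝ) ^ 5 := by
    unfold nc
    rcases max_choice (|(n.1 : ℝ)| / (M : ℝ) ^ 3)
      (max (|(n.2.1 : ℝ)| / (M : ℝ) ^ 4) (|(n.2.2 : ℝ)| / (M : ℝ) ^ 5)) with h | h
    · left; exact h
    · right
      rw [h]
      exact max_choice _ _
  rcases hc with h | h | h
  · refine ⟨fun u => u.1, (M : ℝ) ^ 3, by positivity, ?_, fun u => nc_1 hM u, fun u u' => rfl, ?_⟩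
    · rw [h]
      field_simp
    · intro u hu
      obtain ⟨h1, h2, h3⟩ := hsplit u hu
      refine ⟨by ring, by linear_combination (-1) * h3, by linear_combination h2⟩
  · refine ⟨fun u => u.2.1, (M : ℝ) ^ 4, by positivity, ?_, fun u => nc_2 hM u,
      fun u u' => rfl, ?_⟩
    · rw [h]
      field_simp
    · intro u hu
      obtain ⟨h1, h2, h3⟩ := hsplit u hu
      refine ⟨by linear_combination h3, by ring, by linear_combination (-1) * h1⟩
  · refine ⟨fun u => u.2.2, (M : ℝ) ^ 5, by positivity, ?_, fun u => nc_3 hM u,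
      fun u u' => rfl, ?_⟩
    · rw [h]
      field_simp
    · intro u hu
      obtain ⟨h1, h2, h3⟩ := hsplit u hu
      refine ⟨by linear_combination (-1) * h2, by linear_combination h1, by ring⟩

/-- solutions in a plane -/
theorem planar_count (hM : 1 ≤ M) {v w : ℤ × ℤ × ℤ} (hv : v ≠ 0)
    (hwG : InG p L w) (hcr : cr v w ≠ 0) (hvG : InG p L v) (hvw : nm M v ≤ nm M w)
    (hw3 : nm M w ≤ 3) (hmin : ∀ u, InG p L u → cr v u ≠ 0 → nm M w ≤ nm M u)
    {S : Finset (ℤ × ℤ × ℤ)} (hS : S ⊆ Sol p c L M)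
    (hplane : ∀ t ∈ S, ∀ t' ∈ S, dt (cr v w) (ev t - ev t') = 0) {T : ℝ} (hT0 : 0 ≤ T)
    (hT : ∀ S' ⊆ S, (∀ t ∈ S', ∀ t' ∈ S', cr v (ev t - ev t') = 0) → (S'.card : ℝ) ≤ T) :
    (S.card : ℝ) ≤ 57 / nm M w * T := by
  have hv0 := nm_pos hM hv
  have hw0 : 0 < nm M w := hv0.trans_le hvw
  rcases S.eq_empty_or_nonempty with hSe | ⟨t0, ht0⟩
  · rw [hSe, card_empty, Nat.cast_zero]
    positivity
  obtain ⟨F, s, hs, hFn, hF, hFsub, hFpar⟩ := exists_coord hM (cr v w)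
  have hnc := nc_cr_ge hM hv hvw (fun m => hmin _ (inG_sub hwG (inG_smul hvG m)) (by
    rw [cr_sub_smul]
    exact hcr))
  have hnc0 : 0 < nc M (cr v w) := lt_of_lt_of_le (by positivity) hnc
  have hFn0 : (0 : ℝ) < |(F (cr v w) : ℝ)| := by
    rw [hFn]
    positivity
  have hFne : (F (cr v w) : ℝ) ≠ 0 := abs_pos.1 hFn0
  obtain ⟨β, hβ⟩ : ∃ β : ℤ × ℤ × ℤ → ℝ, β = fun P => (F (cr v P) : ℝ) / (F (cr v w) : ℝ) :=
    ⟨_, rfl⟩
  have hβsub : ∀ P P', β (P - P') = β P - β P' := by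
    intro P P'
    rw [hβ]
    simp only
    rw [cr_sub, hFsub]
    push_cast
    ring
  have hβle : ∀ t ∈ S, |β (ev t - ev t0)| ≤ 12 / nm M w := by
    intro t ht
    rw [hβ]
    simp only
    rw [abs_div, hFn, div_le_div_iff₀ (by positivity) hw0]
    have h1 := hF (cr v (ev t - ev t0))
    have h2 := nc_cr_le hM v (ev t - ev t0)
    have h3 : nm M (ev t - ev t0) ≤ 3 := nm_sub_le hM (hS ht) (hS ht0)
    calc |(F (cr v (ev t - ev t0)) : ℝ)| * nm M w
        ≤ (nc M (cr v (ev t - ev t0)) * s) * nm M w := by gcongr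
      _ ≤ (2 * (nm M v * nm M (ev t - ev t0)) * s) * nm M w := by gcongr
      _ ≤ (2 * (nm M v * 3) * s) * nm M w := by gcongr
      _ = 12 * ((nm M v * nm M w / 2) * s) := by ring
      _ ≤ 12 * (nc M (cr v w) * s) := by gcongr
  have hx0 : 0 ≤ 24 / nm M w + 1 := by positivity
  have hcount := fibre_count S (fun t => ⌊2 * β (ev t - ev t0)⌋) (x := 24 / nm M w + 1) (B := T)
    hx0 hT0 (by
      intro t ht
      have h1 := hβle t ht
      have h2 := Int.floor_le (2 * β (ev t - ev t0))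
      have h3 := Int.lt_floor_add_one (2 * β (ev t - ev t0))
      have h4 := abs_le.1 h1
      have h5 : 24 / nm M w = 2 * (12 / nm M w) := by ring
      rw [h5, abs_le]
      constructor <;> linarith) (by
      intro k
      apply hT _ (filter_subset _ _)
      intro t ht t' ht'
      rw [mem_filter] at ht ht'
      by_contra hne
      have hPG : InG p L (ev t - ev t') := ev_sub_mem (hS ht.1) (hS ht'.1)
      have hpl := hplane t ht.1 t' ht'.1
      have hpar := hFpar _ (cr_cr hpl)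
      have hb : 1 / 2 ≤ |β (ev t - ev t')| := by
        apply beta_int hM hv hvw
        · rw [hβ]
          simp only
          obtain ⟨g1, g2, g3⟩ := hpar
          refine ⟨?_, ?_, ?_⟩
          · rw [div_mul_eq_mul_div, eq_div_iff hFne]
            exact_mod_cast g1
          · rw [div_mul_eq_mul_div, eq_div_iff hFne]
            exact_mod_cast g2
          · rw [div_mul_eq_mul_div, eq_div_iff hFne]
            exact_mod_cast g3
        · intro m
          apply hmin _ (inG_sub hPG (inG_smul hvG m))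
          rw [cr_sub_smul]
          exact hne
      have e1 : β (ev t - ev t') = β (ev t - ev t0) - β (ev t' - ev t0) := by
        rw [← hβsub]
        congr 1
        abel
      rw [e1] at hb
      have h2 := Int.floor_le (2 * β (ev t - ev t0))
      have h3 := Int.lt_floor_add_one (2 * β (ev t - ev t0))
      have h4 := Int.floor_le (2 * β (ev t' - ev t0))
      have h5 := Int.lt_floor_add_one (2 * β (ev t' - ev t0))
      rw [ht.2] at h2 h3
      rw [ht'.2] at h4 h5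
      rcases le_abs.1 hb with h6 | h6 <;> linarith)
  refine hcount.trans (mul_le_mul_of_nonneg_right ?_ hT0)
  have h3 : 3 ≤ 9 / nm M w := by
    rw [le_div_iff₀ hw0]
    linarith
  have h57 : 57 / nm M w = 2 * (24 / nm M w) + 9 / nm M w := by ring
  rw [h57]
  linarith

/-- planes parallel to `v` and `w` -/
theorem plane_count (hp : p.Prime) (hM : 1 ≤ M) {v w : ℤ × ℤ × ℤ} (hvG : InG p L v)
    (hwG : InG p L w) {T : ℝ} (hT0 : 0 ≤ T)
    (hT : ∀ S' ⊆ Sol p c L M, (∀ t ∈ S', ∀ t' ∈ S', dt (cr v w) (ev t - ev t') = 0) →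
      (S'.card : ℝ) ≤ T) :
    ((Sol p c L M).card : ℝ) ≤
      (2 * (18 * (nm M v * nm M w) * (M : ℝ) ^ 6 / p) + 1) * T := by
  have hp0 : (0 : ℝ) < p := by exact_mod_cast hp.pos
  have hv0 := nm_nonneg M v
  have hw0 := nm_nonneg M w
  rcases (Sol p c L M).eq_empty_or_nonempty with hSe | ⟨t0, ht0⟩
  · rw [hSe, card_empty, Nat.cast_zero]
    positivity
  have hdiv : ∀ t ∈ Sol p c L M, (p : ℤ) ∣ dt (cr v w) (ev t - ev t0) := fun t ht =>
    dt_dvd hvG hwG (ev_sub_mem ht ht0)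
  refine fibre_count (Sol p c L M) (fun t => dt (cr v w) (ev t - ev t0) / p) (by positivity) hT0
    (fun t ht => ?_) (fun k => ?_)
  · obtain ⟨q, hq⟩ := hdiv t ht
    have hpz : (p : ℤ) ≠ 0 := by exact_mod_cast hp.ne_zero
    have e : dt (cr v w) (ev t - ev t0) / p = q := by
      rw [hq, mul_comm, Int.mul_ediv_cancel _ hpz]
    rw [e, le_div_iff₀ hp0]
    have h1 := dt_le hM (cr v w) (ev t - ev t0)
    rw [hq] at h1
    push_cast at h1
    rw [abs_mul, abs_of_pos hp0] at h1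
    have h2 := nc_cr_le hM v w
    have h3 : nm M (ev t - ev t0) ≤ 3 := nm_sub_le hM ht ht0
    have h4 := nm_nonneg M (ev t - ev t0)
    calc |(q : ℝ)| * p = p * |(q : ℝ)| := by ring
      _ ≤ 3 * (nc M (cr v w) * nm M (ev t - ev t0)) * (M : ℝ) ^ 6 := h1
      _ ≤ 3 * ((2 * (nm M v * nm M w)) * 3) * (M : ℝ) ^ 6 := by gcongr
      _ = _ := by ring
  · apply hT _ (filter_subset _ _)
    intro t ht t' ht'
    rw [mem_filter] at ht ht'
    obtain ⟨q, hq⟩ := hdiv t ht.1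
    obtain ⟨q', hq'⟩ := hdiv t' ht'.1
    have hpz : (p : ℤ) ≠ 0 := by exact_mod_cast hp.ne_zero
    have h1 := ht.2
    have h2 := ht'.2
    rw [hq, mul_comm, Int.mul_ediv_cancel _ hpz] at h1
    rw [hq', mul_comm, Int.mul_ediv_cancel _ hpz] at h2
    have e : dt (cr v w) (ev t - ev t') =
        dt (cr v w) (ev t - ev t0) - dt (cr v w) (ev t' - ev t0) := by
      unfold dt
      simp only [sub_fst, sub_snd, sub_trd]
      ring
    rw [e, hq, hq', h1, h2]
    ring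

end Pool.Agent.Lib.MP_d1c37f_nt
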