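import Mathlib
import Pool.Agent.Lib.MP_d1c37f_nt.Planar
import Pool.Agent.Lib.MP_d1c37f_nt.Line3
import Pool.Agent.Lib.MP_d1c37f_nt.Degen

/-!
The bound for the number of solutions.
-/

set_option autoImplicit false

namespace Pool.Agent.Lib.MP_d1c37f_nt

open Finset

variable {p : ℕ} {c L : ℤ} {M : ℕ}

/-- a nonzero multiple of `p` is at least `p` in absolute value -/
theorem le_abs_of_dvd' {n : ℤ} (h : (p : ℤ) ∣ n) (hn : n ≠ 0) : (p : ℝ) ≤ |(n : ℝ)| := by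
  have h1 : (p : ℤ) ≤ |n| := Int.le_of_dvd (abs_pos.2 hn) ((dvd_abs _ _).2 h)
  have h2 : ((p : ℤ) : ℝ) ≤ ((|n| : ℤ) : ℝ) := by exact_mod_cast h1
  rwa [Int.cast_natCast, Int.cast_abs] at h2

/-- the second minimum when the normal vector is not on the curve -/
theorem case_one (hM : 1 ≤ M) {v w : ℤ × ℤ × ℤ} (hvG : InG p L v) (hwG : InG p L w)
    (hvw : nm M v ≤ nm M w)
    (hdisc : (cr v w).2.1 ^ 2 ≠ (cr v w).1 * (cr v w).2.2) :
    (p : ℝ) ≤ 8 * (nm M w) ^ 4 * (M : ℝ) ^ 8 := by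
  have h1 := cr_dvd1 hvG hwG
  have h2 := cr_dvd2 hvG hwG
  have hd : (p : ℤ) ∣ (cr v w).2.1 ^ 2 - (cr v w).1 * (cr v w).2.2 := by
    obtain ⟨a, ha⟩ := h1
    obtain ⟨b, hb⟩ := h2
    refine ⟨-a * ((cr v w).1 * L + (cr v w).2.1) + b * (cr v w).1, ?_⟩
    linear_combination (-((cr v w).1 * L + (cr v w).2.1)) * ha + (cr v w).1 * hb
  have h3 := le_abs_of_dvd' hd (sub_ne_zero.2 hdisc)
  push_cast at h3
  have g1 := nc_1 hM (cr v w)
  have g2 := nc_2 hM (cr v w)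
  have g3 := nc_3 hM (cr v w)
  have g0 := nc_nonneg M (cr v w)
  have gc := nc_cr_le hM v w
  have v0 := nm_nonneg M v
  have w0 := nm_nonneg M w
  have gc' : nc M (cr v w) ≤ 2 * (nm M w) ^ 2 := by
    refine gc.trans ?_
    have : nm M v * nm M w ≤ nm M w * nm M w := by gcongr
    nlinarith
  calc (p : ℝ) ≤ |((cr v w).2.1 : ℝ) ^ 2 - ((cr v w).1 : ℝ) * (cr v w).2.2| := h3
    _ ≤ |((cr v w).2.1 : ℝ) ^ 2| + |((cr v w).1 : ℝ) * (cr v w).2.2| := abs_sub _ _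
    _ = |((cr v w).2.1 : ℝ)| ^ 2 + |((cr v w).1 : ℝ)| * |((cr v w).2.2 : ℝ)| := by
        rw [abs_pow, abs_mul]
    _ ≤ (nc M (cr v w) * (M : ℝ) ^ 4) ^ 2 +
        (nc M (cr v w) * (M : ℝ) ^ 3) * (nc M (cr v w) * (M : ℝ) ^ 5) := by gcongr
    _ = 2 * (nc M (cr v w)) ^ 2 * (M : ℝ) ^ 8 := by ring
    _ ≤ 2 * (2 * (nm M w) ^ 2) ^ 2 * (M : ℝ) ^ 8 := by gcongr
    _ = _ := by ring

/-- the normal vector modulo `p` vanishes -/
theorem case_two (hM : 1 ≤ M) {v w : ℤ × ℤ × ℤ} (hvG : InG p L v) (hwG : InG p L w)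
    (hcr : cr v w ≠ 0) (hA : (p : ℤ) ∣ (cr v w).1) :
    (p : ℝ) ≤ 2 * (nm M v * nm M w) * (M : ℝ) ^ 5 := by
  have hM1 : (1 : ℝ) ≤ M := by exact_mod_cast hM
  have h1 := cr_dvd1 hvG hwG
  have h2 := cr_dvd2 hvG hwG
  have hB : (p : ℤ) ∣ (cr v w).2.1 := by
    have := dvd_sub (hA.mul_right L) h1
    rwa [sub_sub_cancel] at this
  have hC : (p : ℤ) ∣ (cr v w).2.2 := by
    have := dvd_sub (hA.mul_right (L ^ 2)) h2
    rwa [sub_sub_cancel] at this
  have g1 := nc_1 hM (cr v w)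
  have g2 := nc_2 hM (cr v w)
  have g3 := nc_3 hM (cr v w)
  have g0 := nc_nonneg M (cr v w)
  have gc := nc_cr_le hM v w
  have e3 : (M : ℝ) ^ 3 ≤ (M : ℝ) ^ 5 := pow_le_pow_right₀ hM1 (by norm_num)
  have e4 : (M : ℝ) ^ 4 ≤ (M : ℝ) ^ 5 := pow_le_pow_right₀ hM1 (by norm_num)
  have key : (p : ℝ) ≤ nc M (cr v w) * (M : ℝ) ^ 5 := by
    by_cases z1 : (cr v w).1 = 0
    · by_cases z2 : (cr v w).2.1 = 0
      · by_cases z3 : (cr v w).2.2 = 0
        · exact absurd (Prod.ext z1 (Prod.ext z2 z3)) hcr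
        · exact (le_abs_of_dvd' hC z3).trans g3
      · exact (le_abs_of_dvd' hB z2).trans (g2.trans (mul_le_mul_of_nonneg_left e4 g0))
    · exact (le_abs_of_dvd' hA z1).trans (g1.trans (mul_le_mul_of_nonneg_left e3 g0))
  exact key.trans (mul_le_mul_of_nonneg_right gc (by positivity))

/-- three independent lattice vectors -/
theorem case_three (hM : 1 ≤ M) {v w : ℤ × ℤ × ℤ} (hvG : InG p L v) (hwG : InG p L w)
    {t t' : ℤ × ℤ × ℤ} (ht : t ∈ Sol p c L M) (ht' : t' ∈ Sol p c L M)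
    (hne : dt (cr v w) (ev t - ev t') ≠ 0) :
    (p : ℝ) ≤ 18 * (nm M v * nm M w) * (M : ℝ) ^ 6 := by
  have h1 := le_abs_of_dvd' (dt_dvd hvG hwG (ev_sub_mem ht ht')) hne
  have h2 := dt_le hM (cr v w) (ev t - ev t')
  have h3 := nc_cr_le hM v w
  have h4 := nm_sub_le hM ht ht'
  have h5 := nm_nonneg M (ev t - ev t')
  have h6 := nc_nonneg M (cr v w)
  have v0 := nm_nonneg M v
  have w0 := nm_nonneg M w
  calc (p : ℝ) ≤ |(dt (cr v w) (ev t - ev t') : ℝ)| := h1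
    _ ≤ 3 * (nc M (cr v w) * nm M (ev t - ev t')) * (M : ℝ) ^ 6 := h2
    _ ≤ 3 * ((2 * (nm M v * nm M w)) * 3) * (M : ℝ) ^ 6 := by gcongr
    _ = _ := by ring

/-- the bound in terms of `x = p ^ (1/12)` -/
theorem main_bound (ε : ℝ) (hε : 0 < ε) : ∃ C : ℝ, 0 < C ∧ ∀ (p : ℕ) (c L : ℤ) (M : ℕ) (x : ℝ),
    p.Prime → ¬ (p : ℤ) ∣ c → 1 ≤ M → M ≤ p → 0 < x → x ^ 12 = p →
      ((Sol p c L M).card : ℝ) ≤
        C * (M : ℝ) ^ ε * (1 + (M : ℝ) ^ 2 / x ^ 3 + (M : ℝ) ^ 4 / x ^ 8) := by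
  obtain ⟨C1, hC1, hline⟩ := line_bound ε hε
  obtain ⟨C2, hC2, hdeg⟩ := degen_bound ε hε
  refine ⟨3078 * C1 + C2 + 9, by positivity, ?_⟩
  intro p c L M x hp hc hM hMp hx hxp
  have hM1 : (1 : ℝ) ≤ M := by exact_mod_cast hM
  have hM0 : (0 : ℝ) < M := by exact_mod_cast hM
  have hMε : (1 : ℝ) ≤ (M : ℝ) ^ ε := Real.one_le_rpow hM1 hε.le
  obtain ⟨a, ha⟩ : ∃ a : ℝ, a = (M : ℝ) ^ 2 / x ^ 3 := ⟨_, rfl⟩
  obtain ⟨b, hb⟩ : ∃ b : ℝ, b = (M : ℝ) ^ 4 / x ^ 8 := ⟨_, rfl⟩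
  have ha0 : 0 ≤ a := by rw [ha]; positivity
  have hb0 : 0 ≤ b := by rw [hb]; positivity
  rw [← ha, ← hb]
  obtain ⟨K, hK⟩ : ∃ K : ℝ, K = (M : ℝ) ^ ε := ⟨_, rfl⟩
  rw [← hK] at hMε ⊢
  have hK0 : 0 < K := by linarith
  have hbig : ∀ {N : ℝ}, N ≤ (3078 * C1 + C2 + 9) * K * b →
      N ≤ (3078 * C1 + C2 + 9) * K * (1 + a + b) := by
    intro N hN
    refine hN.trans (mul_le_mul_of_nonneg_left ?_ (by positivity))
    linarith
  have hsmall : ∀ {N : ℝ}, N ≤ (3078 * C1 + C2 + 9) * K →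
      N ≤ (3078 * C1 + C2 + 9) * K * (1 + a + b) := by
    intro N hN
    refine hN.trans (le_mul_of_one_le_right (by positivity) ?_)
    linarith
  by_cases hM3 : M ^ 3 < p
  swap
  · -- long intervals
    apply hbig
    have h1 : x ^ 12 ≤ (M : ℝ) ^ 3 := by
      rw [hxp]
      exact_mod_cast not_lt.1 hM3
    have h2 : x ^ 4 ≤ (M : ℝ) := by
      have : (x ^ 4) ^ 3 ≤ (M : ℝ) ^ 3 := by
        rw [← pow_mul]
        exact h1
      exact le_of_pow_le_pow_left₀ (by norm_num) hM0.le this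
    have h3 : ((Sol p c L M).card : ℝ) ≤ (M : ℝ) ^ 2 := by exact_mod_cast card_sol_le_sq hp hc hMp
    have h4 : (M : ℝ) ^ 2 ≤ b := by
      rw [hb, le_div_iff₀ (by positivity)]
      have : x ^ 8 ≤ (M : ℝ) ^ 2 := by
        calc x ^ 8 = (x ^ 4) ^ 2 := by ring
          _ ≤ (M : ℝ) ^ 2 := by gcongr
      nlinarith [pow_pos hM0 2]
    refine (h3.trans h4).trans (le_mul_of_one_le_left hb0 ?_)
    have : 1 ≤ (3078 * C1 + C2 + 9) := by linarith
    exact one_le_mul_of_one_le_of_one_le this hMε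
  by_cases hall : ∀ t ∈ Sol p c L M, ∀ t' ∈ Sol p c L M, ev t = ev t'
  · -- all solutions have the same symmetric functions
    apply hsmall
    have h9 : (Sol p c L M).card ≤ 9 := by
      rcases (Sol p c L M).eq_empty_or_nonempty with hSe | ⟨t0, ht0⟩
      · rw [hSe, card_empty]
        norm_num
      · exact card_ev_eq t0 hp hc hMp (Subset.refl _) (fun t ht => hall t ht t0 ht0)
    have h9' : ((Sol p c L M).card : ℝ) ≤ 9 := by exact_mod_cast h9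
    refine h9'.trans ?_
    have h1 : (9 : ℝ) * 1 ≤ (3078 * C1 + C2 + 9) * K := by
      apply mul_le_mul _ hMε (by norm_num) (by positivity)
      linarith
    linarith
  push Not at hall
  obtain ⟨s, hs, s', hs', hss⟩ := hall
  -- the first minimum
  obtain ⟨v, ⟨hvG, hv⟩, hv3, hvmin⟩ := exists_min hM (fun v => InG p L v ∧ v ≠ 0)
    ⟨ev s - ev s', ⟨ev_sub_mem hs hs', sub_ne_zero.2 hss⟩, nm_sub_le hM hs hs'⟩
  have hv0 := nm_pos hM hv
  have hκ : nm M v ≤ x ^ 4 / (M : ℝ) ^ 2 := by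
    obtain ⟨w, hw, hwG, hwκ⟩ := exists_short hp hM L (x ^ 4 / (M : ℝ) ^ 2) (by positivity) (by
      rw [← hxp]
      apply le_of_eq
      field_simp)
    exact (hvmin w ⟨hwG, hw⟩).trans hwκ
  have hTle : ∀ S' ⊆ Sol p c L M, (∀ t ∈ S', ∀ t' ∈ S', cr v (ev t - ev t') = 0) →
      (S'.card : ℝ) ≤ C1 * K := by
    intro S' hS' h
    rw [hK]
    exact hline p c L M hp hc hM hM3 v S' hS' hv h
  by_cases hw : ∃ w, (InG p L w ∧ cr v w ≠ 0) ∧ nm M w ≤ 3
  swap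
  · apply hsmall
    refine (hTle _ (Subset.refl _) fun t ht t' ht' => ?_).trans ?_
    · by_contra hne
      exact hw ⟨_, ⟨ev_sub_mem ht ht', hne⟩, nm_sub_le hM ht ht'⟩
    · apply mul_le_mul_of_nonneg_right _ hK0.le
      linarith
  obtain ⟨w, ⟨hwG, hcr⟩, hw3, hwmin⟩ := exists_min hM (fun w => InG p L w ∧ cr v w ≠ 0) hw
  have hwne : w ≠ 0 := by
    rintro rfl
    apply hcr
    simp [cr]
  have hvw : nm M v ≤ nm M w := hvmin w ⟨hwG, hwne⟩
  have hw0 : 0 < nm M w := hv0.trans_le hvw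
  -- number of planes times number of lines
  have hN : ((Sol p c L M).card : ℝ) ≤
      (2 * (18 * (nm M v * nm M w) * (M : ℝ) ^ 6 / p) + 1) * (57 / nm M w * (C1 * K)) := by
    apply plane_count hp hM hvG hwG (by positivity)
    intro S' hS' hpl
    exact planar_count hM hv hwG hcr hvG hvw hw3 (fun u hu hu' => hwmin u ⟨hu, hu'⟩) hS' hpl
      (by positivity) (fun S'' hS'' h => hTle S'' (hS''.trans hS') h)
  have hN2 : ((Sol p c L M).card : ℝ) ≤ 57 * (36 * b + 1 / nm M w) * (C1 * K) := by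
    refine hN.trans ?_
    have e : (2 * (18 * (nm M v * nm M w) * (M : ℝ) ^ 6 / p) + 1) * (57 / nm M w * (C1 * K)) =
        57 * (36 * (nm M v * (M : ℝ) ^ 6 / p) + 1 / nm M w) * (C1 * K) := by
      field_simp
      ring
    rw [e]
    have h1 : nm M v * (M : ℝ) ^ 6 / p ≤ b := by
      rw [← hxp, hb]
      calc nm M v * (M : ℝ) ^ 6 / x ^ 12 ≤ (x ^ 4 / (M : ℝ) ^ 2) * (M : ℝ) ^ 6 / x ^ 12 := by gcongr
        _ = _ := by field_simp
    gcongr
  have hfin : 1 / nm M w ≤ 2 * a + 18 * b →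
      ((Sol p c L M).card : ℝ) ≤ (3078 * C1 + C2 + 9) * K * (1 + a + b) := by
    intro h
    calc ((Sol p c L M).card : ℝ) ≤ 57 * (36 * b + 1 / nm M w) * (C1 * K) := hN2
      _ ≤ 57 * (36 * b + (2 * a + 18 * b)) * (C1 * K) := by gcongr
      _ = (114 * a + 3078 * b) * (C1 * K) := by ring
      _ ≤ (3078 * (1 + a + b)) * (C1 * K) := by
          apply mul_le_mul_of_nonneg_right _ (by positivity)
          linarith
      _ = (3078 * C1) * K * (1 + a + b) := by ring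
      _ ≤ (3078 * C1 + C2 + 9) * K * (1 + a + b) := by
          apply mul_le_mul_of_nonneg_right _ (by positivity)
          apply mul_le_mul_of_nonneg_right _ hK0.le
          linarith
  by_cases hdisc : (cr v w).2.1 ^ 2 = (cr v w).1 * (cr v w).2.2
  swap
  · -- the normal vector is not on the curve
    apply hfin
    have h1 := case_one hM hvG hwG hvw hdisc
    rw [← hxp] at h1
    have h2 : x ^ 3 ≤ 2 * (M : ℝ) ^ 2 * nm M w := by
      apply le_of_pow_le_pow_left₀ (n := 4) (by norm_num) (by positivity)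
      calc (x ^ 3) ^ 4 = x ^ 12 := by ring
        _ ≤ 8 * (nm M w) ^ 4 * (M : ℝ) ^ 8 := h1
        _ ≤ 16 * ((nm M w) ^ 4 * (M : ℝ) ^ 8) := by
            have : 0 ≤ (nm M w) ^ 4 * (M : ℝ) ^ 8 := by positivity
            linarith
        _ = _ := by ring
    have h3 : 1 / nm M w ≤ 2 * a := by
      rw [ha, div_le_iff₀ hw0]
      have : 2 * ((M : ℝ) ^ 2 / x ^ 3) * nm M w = (2 * (M : ℝ) ^ 2 * nm M w) / x ^ 3 := by ring
      rw [this, le_div_iff₀ (by positivity)]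
      linarith
    linarith
  by_cases hA : (p : ℤ) ∣ (cr v w).1
  · apply hfin
    have h1 := case_two hM hvG hwG hcr hA
    rw [← hxp] at h1
    have h2 : x ^ 12 ≤ 2 * (x ^ 4 / (M : ℝ) ^ 2 * nm M w) * (M : ℝ) ^ 5 := by
      refine h1.trans ?_
      gcongr
    have h3 : 1 / nm M w ≤ 2 * b := by
      rw [hb, div_le_iff₀ hw0]
      have e : 2 * (x ^ 4 / (M : ℝ) ^ 2 * nm M w) * (M : ℝ) ^ 5 =
          (2 * (M : ℝ) ^ 3 * nm M w) * x ^ 4 := by field_simp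
      rw [e] at h2
      have h4 : x ^ 8 ≤ 2 * (M : ℝ) ^ 3 * nm M w := by
        have : x ^ 8 * x ^ 4 ≤ (2 * (M : ℝ) ^ 3 * nm M w) * x ^ 4 := by
          calc x ^ 8 * x ^ 4 = x ^ 12 := by ring
            _ ≤ _ := h2
        exact le_of_mul_le_mul_right this (by positivity)
      have h5 : 2 * ((M : ℝ) ^ 4 / x ^ 8) * nm M w = (2 * (M : ℝ) ^ 4 * nm M w) / x ^ 8 := by ring
      rw [h5, le_div_iff₀ (by positivity), one_mul]
      refine h4.trans ?_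
      have h6 : (M : ℝ) ^ 3 ≤ (M : ℝ) ^ 4 := pow_le_pow_right₀ hM1 (by norm_num)
      gcongr
    linarith
  by_cases hpl : ∀ t ∈ Sol p c L M, ∀ t' ∈ Sol p c L M, dt (cr v w) (ev t - ev t') = 0
  · apply hsmall
    have g1 := nc_1 hM (cr v w)
    have g2 := nc_2 hM (cr v w)
    have gc := nc_cr_le hM v w
    have gc' : nc M (cr v w) ≤ 18 := by
      refine gc.trans ?_
      have : nm M v * nm M w ≤ 3 * 3 := mul_le_mul hv3 hw3 hw0.le (by norm_num)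
      linarith
    have k1 : |(cr v w).1| ≤ 18 * (M : ℤ) ^ 3 := by
      have : |((cr v w).1 : ℝ)| ≤ 18 * (M : ℝ) ^ 3 :=
        g1.trans (mul_le_mul_of_nonneg_right gc' (by positivity))
      exact_mod_cast this
    have k2 : |(cr v w).2.1| ≤ 18 * (M : ℤ) ^ 4 := by
      have : |((cr v w).2.1 : ℝ)| ≤ 18 * (M : ℝ) ^ 4 :=
        g2.trans (mul_le_mul_of_nonneg_right gc' (by positivity))
      exact_mod_cast this
    have h1 := hdeg p c L M hp hc hM hM3 (cr v w) hA (cr_dvd1 hvG hwG) hdisc k1 k2 hpl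
    rw [← hK] at h1
    refine h1.trans (mul_le_mul_of_nonneg_right ?_ hK0.le)
    linarith
  · push Not at hpl
    obtain ⟨t, ht, t', ht', hne⟩ := hpl
    apply hfin
    have h1 := case_three hM hvG hwG ht ht' hne
    rw [← hxp] at h1
    have h2 : x ^ 12 ≤ 18 * (x ^ 4 / (M : ℝ) ^ 2 * nm M w) * (M : ℝ) ^ 6 := by
      refine h1.trans ?_
      gcongr
    have h3 : 1 / nm M w ≤ 18 * b := by
      rw [hb, div_le_iff₀ hw0]
      have e : 18 * (x ^ 4 / (M : ℝ) ^ 2 * nm M w) * (M : ℝ) ^ 6 =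
          (18 * (M : ℝ) ^ 4 * nm M w) * x ^ 4 := by field_simp
      rw [e] at h2
      have h4 : x ^ 8 ≤ 18 * (M : ℝ) ^ 4 * nm M w := by
        have : x ^ 8 * x ^ 4 ≤ (18 * (M : ℝ) ^ 4 * nm M w) * x ^ 4 := by
          calc x ^ 8 * x ^ 4 = x ^ 12 := by ring
            _ ≤ _ := h2
        exact le_of_mul_le_mul_right this (by positivity)
      have h5 : 18 * ((M : ℝ) ^ 4 / x ^ 8) * nm M w = (18 * (M : ℝ) ^ 4 * nm M w) / x ^ 8 := by
        ring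
      rw [h5, le_div_iff₀ (by positivity), one_mul]
      exact h4
    linarith

end Pool.Agent.Lib.MP_d1c37f_nt
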